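import Mathlib
import Pool.Agent.helper89.Segre.Def
import Pool.Agent.helper89.Segre.Final

set_option autoImplicit false

/-!
# The double line through two points
-/

namespace Pool.Agent.helper7.Hex

open Pool.Agent.helper89.Segre MvPolynomial

/-- linear substitution -/
noncomputable def lin (A : Matrix (Fin 3) (Fin 3) ℂ) :
    MvPolynomial (Fin 3) ℂ →ₐ[ℂ] MvPolynomial (Fin 3) ℂ :=
  aeval fun k => ∑ l, C (A k l) * X l

/-- translation -/
noncomputable def tau (v : Fin 3 → ℂ) : MvPolynomial (Fin 3) ℂ →ₐ[ℂ] MvPolynomial (Fin 3) ℂ :=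
  aeval (R := ℂ) (fun j : Fin 3 => (X j + C (v j) : MvPolynomial (Fin 3) ℂ))

lemma lin_X (A : Matrix (Fin 3) (Fin 3) ℂ) (k : Fin 3) : lin A (X k) = ∑ l, C (A k l) * X l :=
  aeval_X _ _

lemma lin_lin (A B : Matrix (Fin 3) (Fin 3) ℂ) (f : MvPolynomial (Fin 3) ℂ) :
    lin B (lin A f) = lin (A * B) f := by
  have : (lin B).comp (lin A) = lin (A * B) := by
    apply MvPolynomial.algHom_ext
    intro k
    rw [AlgHom.comp_apply, lin_X, lin_X, map_sum]
    simp only [map_mul, lin_X, Matrix.mul_apply, ← algebraMap_eq, AlgHom.commutes, map_sum,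
      Finset.mul_sum, Finset.sum_mul]
    rw [Finset.sum_comm]
    apply Finset.sum_congr rfl
    intro l _
    apply Finset.sum_congr rfl
    intro j _
    ring
  rw [← this]; rfl

lemma lin_one (f : MvPolynomial (Fin 3) ℂ) : lin 1 f = f := by
  have : lin 1 = AlgHom.id ℂ _ := by
    apply MvPolynomial.algHom_ext
    intro k
    rw [lin_X, AlgHom.id_apply, Finset.sum_eq_single k]
    · simp
    · intro l _ hl
      rw [Matrix.one_apply_ne hl.symm]; simp
    · simp
  rw [this]; rfl

lemma tau_lin (A : Matrix (Fin 3) (Fin 3) ℂ) (v : Fin 3 → ℂ) (f : MvPolynomial (Fin 3) ℂ) :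
    tau v (lin A f) = lin A (tau (A.mulVec v) f) := by
  have : (tau v).comp (lin A) = (lin A).comp (tau (A.mulVec v)) := by
    apply MvPolynomial.algHom_ext
    intro k
    rw [AlgHom.comp_apply, AlgHom.comp_apply, lin_X]
    unfold tau
    rw [aeval_X, map_add, lin_X, map_sum]
    simp only [map_mul, aeval_X, ← algebraMap_eq, AlgHom.commutes, Matrix.mulVec, dotProduct,
      mul_add, Finset.sum_add_distrib, map_sum]
  exact congrArg (fun g => g f) this

lemma isHomogeneous_lin_monomial (A : Matrix (Fin 3) (Fin 3) ℂ) (n : Fin 3 →₀ ℕ) (c : ℂ) :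
    (lin A (monomial n c)).IsHomogeneous (∑ j, n j) := by
  unfold lin
  rw [aeval_monomial, algebraMap_eq]
  have h1 : (C c : MvPolynomial (Fin 3) ℂ).IsHomogeneous 0 := isHomogeneous_C _ _
  have h2 : (n.prod fun k e => (∑ l, C (A k l) * X l : MvPolynomial (Fin 3) ℂ) ^ e).IsHomogeneous
      (∑ j, n j) := by
    rw [Finsupp.prod_fintype _ _ (by intro i; simp)]
    apply IsHomogeneous.prod
    intro i _
    have h3 : (∑ l, C (A i l) * X l : MvPolynomial (Fin 3) ℂ).IsHomogeneous 1 := by
      apply IsHomogeneous.sum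
      intro l _
      have := (isHomogeneous_C (Fin 3) (A i l)).mul (isHomogeneous_X ℂ l)
      rwa [zero_add] at this
    have := h3.pow (n i)
    rwa [one_mul] at this
  have := h1.mul h2
  rwa [zero_add] at this

/-- low order terms stay zero under linear substitutions -/
lemma low_lin (A : Matrix (Fin 3) (Fin 3) ℂ) {f : MvPolynomial (Fin 3) ℂ} {m : ℕ}
    (h : ∀ n : Fin 3 →₀ ℕ, ∑ j, n j < m → coeff n f = 0) (n : Fin 3 →₀ ℕ) (hn : ∑ j, n j < m) :
    coeff n (lin A f) = 0 := by
  rw [f.as_sum, map_sum, coeff_sum]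
  apply Finset.sum_eq_zero
  intro k hk
  have h1 := isHomogeneous_lin_monomial A k (coeff k f)
  apply h1.coeff_eq_zero
  rw [Finsupp.degree_eq_sum]
  intro heq
  apply mem_support_iff.mp hk
  apply h
  rw [← heq]; exact hn

lemma homogeneous_lin (A : Matrix (Fin 3) (Fin 3) ℂ) {f : MvPolynomial (Fin 3) ℂ} {d : ℕ}
    (hf : f ∈ homogeneousSubmodule (Fin 3) ℂ d) : lin A f ∈ homogeneousSubmodule (Fin 3) ℂ d := by
  rw [mem_homogeneousSubmodule] at hf ⊢
  rw [f.as_sum, map_sum]
  apply IsHomogeneous.sum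
  intro k hk
  have h1 := isHomogeneous_lin_monomial A k (coeff k f)
  have h2 : ∑ j, k j = d := by
    have := hf (mem_support_iff.mp hk)
    rw [← Finsupp.degree_eq_sum, ← this, Finsupp.degree_eq_weight_one]
    rfl
  rwa [h2] at h1

/-- the forms with high multiplicities at two coordinate points -/
lemma sq_dvd_coord {d a b : ℕ} (hab : d + 2 ≤ a + b) {g : MvPolynomial (Fin 3) ℂ}
    (hg : g ∈ homogeneousSubmodule (Fin 3) ℂ d)
    (h0 : ∀ n : Fin 3 →₀ ℕ, ∑ j, n j < a → coeff n (tau ![1, 0, 0] g) = 0)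
    (h1 : ∀ n : Fin 3 →₀ ℕ, ∑ j, n j < b → coeff n (tau ![0, 1, 0] g) = 0) :
    X 2 ^ 2 ∣ g := by
  classical
  set c : tri d → ℂ := fun e => coeff (ex d e) g with hc
  have hgc : form d c = g := form_surj d hg
  have gg10 : ∀ k : ℕ, gg 1 k 0 = 1 := by intro k; unfold gg; simp
  have gg00 : ∀ k i : ℕ, gg 0 k i = if k = i then 1 else 0 := by
    intro k i
    unfold gg
    rcases lt_trichotomy k i with h | h | h
    · rw [Nat.choose_eq_zero_of_lt h, if_neg (by omega)]; simp
    · subst h; simp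
    · rw [if_neg (by omega), zero_pow (by omega), zero_mul]
  -- vanishing of coefficients
  have hc0 : ∀ e : tri d, e.1.1 + a > d → c e = 0 := by
    intro e he
    have hed := mem_tri.mp e.2
    set n : Fin 3 →₀ ℕ := Finsupp.equivFunOnFinite.symm ![0, e.1.2, d - e.1.1 - e.1.2] with hn
    have e0 : n 0 = 0 := rfl
    have e1 : n 1 = e.1.2 := rfl
    have e2 : n 2 = d - e.1.1 - e.1.2 := rfl
    have h3 := h0 n (by rw [Fin.sum_univ_three, e0, e1, e2]; omega)
    unfold tau at h3
    rw [← hgc, coeff_shift_form, e0, e1, e2, Finset.sum_eq_single e] at h3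
    · unfold RR at h3
      simpa [gg10, gg00] using h3
    · intro f _ hf
      have hfd := mem_tri.mp f.2
      unfold RR
      simp only [Matrix.cons_val_zero, Matrix.cons_val_one, Matrix.cons_val, gg10, gg00]
      by_cases h4 : f.1.2 = e.1.2
      · rw [if_pos h4, if_neg]
        · ring
        · intro h5
          apply hf
          ext
          · omega
          · exact h4
      · rw [if_neg h4]; ring
    · intro h4; exact absurd (Finset.mem_univ _) h4
  have hc1 : ∀ e : tri d, e.1.2 + b > d → c e = 0 := by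
    intro e he
    have hed := mem_tri.mp e.2
    set n : Fin 3 →₀ ℕ := Finsupp.equivFunOnFinite.symm ![e.1.1, 0, d - e.1.1 - e.1.2] with hn
    have e0 : n 0 = e.1.1 := rfl
    have e1 : n 1 = 0 := rfl
    have e2 : n 2 = d - e.1.1 - e.1.2 := rfl
    have h3 := h1 n (by rw [Fin.sum_univ_three, e0, e1, e2]; omega)
    unfold tau at h3
    rw [← hgc, coeff_shift_form, e0, e1, e2, Finset.sum_eq_single e] at h3
    · unfold RR at h3
      simpa [gg10, gg00] using h3
    · intro f _ hf
      have hfd := mem_tri.mp f.2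
      unfold RR
      simp only [Matrix.cons_val_zero, Matrix.cons_val_one, Matrix.cons_val, gg10, gg00]
      by_cases h4 : f.1.1 = e.1.1
      · rw [if_pos h4, if_neg]
        · ring
        · intro h5
          apply hf
          ext
          · exact h4
          · omega
      · rw [if_neg h4]; ring
    · intro h4; exact absurd (Finset.mem_univ _) h4
  rw [← hgc]
  change X 2 ^ 2 ∣ ∑ e : tri d, monomial (ex d e) (c e)
  apply Finset.dvd_sum
  intro e _
  by_cases h4 : e.1.1 + a > d
  · rw [hc0 e h4, monomial_zero]; exact dvd_zero _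
  by_cases h5 : e.1.2 + b > d
  · rw [hc1 e h5, monomial_zero]; exact dvd_zero _
  have h6 : X 2 ^ 2 = monomial (Finsupp.single (2 : Fin 3) 2) (1 : ℂ) := by
    rw [X_pow_eq_monomial]
  rw [h6]
  refine ⟨monomial (ex d e - Finsupp.single 2 2) (c e), ?_⟩
  rw [monomial_mul, one_mul]
  congr 1
  rw [add_tsub_cancel_of_le]
  rw [Finsupp.single_le_iff, ex_two]
  omega

/-- The double line. -/
theorem double_line {d h : ℕ} {m : Fin h → ℕ} {p : Fin h → Fin 3 → ℂ} {i j : Fin h}
    (hp : p i 0 * p j 1 - p i 1 * p j 0 ≠ 0) (hab : d + 2 ≤ m i + m j) :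
    ∃ ℓ : MvPolynomial (Fin 3) ℂ, ℓ.IsHomogeneous 1 ∧ ℓ ≠ 0 ∧ ∀ f ∈ sys d h m p, ℓ ^ 2 ∣ f := by
  set A : Matrix (Fin 3) (Fin 3) ℂ := Matrix.of ![![p i 0, p j 0, 0], ![p i 1, p j 1, 0],
    ![p i 2, p j 2, 1]] with hA
  have hdet : A.det ≠ 0 := by
    rw [hA, Matrix.det_fin_three]
    simp only [Matrix.of_apply, Matrix.cons_val_zero, Matrix.cons_val_one, Matrix.cons_val]
    intro h
    apply hp
    linear_combination h
  have hu : IsUnit A.det := isUnit_iff_ne_zero.mpr hdet
  have hAA : A * A⁻¹ = 1 := Matrix.mul_nonsing_inv A hu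
  have hAA' : A⁻¹ * A = 1 := Matrix.nonsing_inv_mul A hu
  have hv0 : A.mulVec ![1, 0, 0] = p i := by
    ext k
    fin_cases k <;> simp [hA, Matrix.mulVec, dotProduct, Fin.sum_univ_three]
  have hv1 : A.mulVec ![0, 1, 0] = p j := by
    ext k
    fin_cases k <;> simp [hA, Matrix.mulVec, dotProduct, Fin.sum_univ_three]
  refine ⟨lin A⁻¹ (X 2), ?_, ?_, ?_⟩
  · have h1 := isHomogeneous_lin_monomial A⁻¹ (Finsupp.single 2 1) 1
    have h2 : ∑ j, (Finsupp.single (2 : Fin 3) 1 : Fin 3 →₀ ℕ) j = 1 := by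
      rw [Fin.sum_univ_three]; simp
    rw [h2] at h1
    exact h1
  · intro h0
    have h1 : lin A (lin A⁻¹ (X 2)) = X 2 := by rw [lin_lin, hAA', lin_one]
    rw [h0, map_zero] at h1
    exact X_ne_zero (R := ℂ) (2 : Fin 3) h1.symm
  · intro f hf
    obtain ⟨hf1, hf2⟩ := hf
    have h1 : X 2 ^ 2 ∣ lin A f := by
      apply sq_dvd_coord hab (homogeneous_lin A hf1)
      · intro n hn
        rw [tau_lin, hv0]
        exact low_lin A (hf2 i) n hn
      · intro n hn
        rw [tau_lin, hv1]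
        exact low_lin A (hf2 j) n hn
    have h2 := map_dvd (lin A⁻¹) h1
    rwa [map_pow, lin_lin, hAA, lin_one] at h2

end Pool.Agent.helper7.Hex
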