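import Mathlib
import Pool.Agent.helper89.Segre2.StripMain

set_option autoImplicit false

/-!
# Rows with arbitrary left ends
-/

namespace Pool.Agent.helper7.Hex

open Pool.Agent.helper89.Segre

variable {K : Type} [Field K]

/-- The set of `(a, b)` with `b < n` and `l b ≤ a < l b + y b`. -/
def boxl (n : ℕ) (l y : ℕ → ℕ) : Finset (ℕ × ℕ) :=
  ((Finset.range n).sigma fun b => Finset.range (y b)).image fun s => (l s.1 + s.2, s.1)

lemma mem_boxl {n : ℕ} {l y : ℕ → ℕ} {e : ℕ × ℕ} :
    e ∈ boxl n l y ↔ e.2 < n ∧ l e.2 ≤ e.1 ∧ e.1 < l e.2 + y e.2 := by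
  unfold boxl
  simp only [Finset.mem_image, Finset.mem_sigma, Finset.mem_range, Sigma.exists]
  constructor
  · rintro ⟨b, a, ⟨h1, h2⟩, rfl⟩
    exact ⟨h1, Nat.le_add_right _ _, by simpa using h2⟩
  · rintro ⟨h1, h2, h3⟩
    refine ⟨e.2, e.1 - l e.2, ⟨h1, by omega⟩, ?_⟩
    ext
    · simp only; omega
    · rfl

lemma card_boxl (n : ℕ) (l y : ℕ → ℕ) : (boxl n l y).card = ∑ b ∈ Finset.range n, y b := by
  unfold boxl
  rw [Finset.card_image_of_injective, Finset.card_sigma]
  · simp
  · rintro ⟨a, b⟩ ⟨c, d⟩ h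
    simp only [Prod.mk.injEq] at h
    obtain ⟨h1, rfl⟩ := h
    have : b = d := by omega
    subst this; rfl

lemma card_boxl_eq (n : ℕ) (l y : ℕ → ℕ) : (boxl n l y).card = (box n y).card := by
  rw [card_boxl, card_box]

lemma slice_goodl [CharZero K] {n μ : ℕ} {l y c r : ℕ → ℕ} (h : Slice n μ y c r)
    {ms : Multiset ℕ} {s : ℕ}
    (hg : Good K (boxl n l (fun b => y b - c b)) ms s) :
    Good K (boxl n l y) (μ ::ₘ ms) ((μ + 1).choose 2 + s) := by
  classical
  set D := boxl n l y with hD
  set D' := boxl n l (fun b => y b - c b) with hD'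
  have hsub : D' ⊆ D := by
    intro e he
    rw [hD', mem_boxl] at he
    rw [hD, mem_boxl]
    exact ⟨he.1, he.2.1, by omega⟩
  set G := D \ D' with hG
  have hmemG : ∀ e, e ∈ G ↔ e.2 < n ∧ l e.2 + (y e.2 - c e.2) ≤ e.1 ∧ e.1 < l e.2 + y e.2 := by
    intro e
    rw [hG, Finset.mem_sdiff, hD, hD', mem_boxl, mem_boxl]
    constructor
    · rintro ⟨⟨h1, h2, h2'⟩, h3⟩
      exact ⟨h1, by by_contra h4; exact h3 ⟨h1, h2, by omega⟩, h2'⟩
    · rintro ⟨h1, h2, h3⟩
      exact ⟨⟨h1, by omega, h3⟩, fun h4 => by omega⟩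
  have hcardG : G.card = (μ + 1).choose 2 := by
    rw [hG, Finset.card_sdiff_of_subset hsub, hD, hD', card_boxl, card_boxl, ← h.sum]
    have : ∑ b ∈ Finset.range n, y b =
        ∑ b ∈ Finset.range n, (y b - c b) + ∑ b ∈ Finset.range n, c b := by
      rw [← Finset.sum_add_distrib]
      apply Finset.sum_congr rfl
      intro b hb
      have := h.le b (Finset.mem_range.mp hb)
      omega
    omega
  let S : ℕ → Finset ℕ := fun k =>
    Finset.Ico (l (r k) + y (r k) - k) (l (r k) + y (r k))
  have hScard : ∀ k, 0 < k → k ≤ μ → k ≤ (S k).card := by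
    intro k h1 h2
    have h3 := h.row k h1 h2
    have h4 := h.le (r k) h3.1
    simp only [S, Nat.card_Ico]
    omega
  have hSG : ∀ k, 0 < k → k ≤ μ → ∀ s ∈ S k, (s, r k) ∈ G := by
    intro k h1 h2 s hs
    have h3 := h.row k h1 h2
    have h4 := h.le (r k) h3.1
    simp only [S, Finset.mem_Ico] at hs
    rw [hmemG]
    simp only
    refine ⟨h3.1, ?_, hs.2⟩
    rw [h3.2]; omega
  have hinj : ∀ k l, 0 < k → k < l → l ≤ μ → r k ≠ r l := by
    intro k l h1 h2 h3 h4
    have h5 := h.row k h1 (by omega)
    have h6 := h.row l (by omega) h3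
    rw [h4] at h5
    omega
  have huni : ∀ u : ℕ × ℕ → K, (∀ g ∈ G, tf μ u g = 0) → ∀ ij ∈ idx μ, u ij = 0 := by
    intro u hu
    apply tf_unisolvent r S hScard hinj
    intro k h1 h2 s hs
    exact hu _ (hSG k h1 h2 s hs)
  have hdual := exists_dual G (by rw [hcardG, card_idx]) huni
  choose! u hu1 hu2 using hdual
  rw [← hcardG]
  -- the bound
  obtain ⟨K0, hK0⟩ : ∃ K0, ∀ b < n, l b + y b ≤ K0 :=
    ⟨∑ b ∈ Finset.range n, (l b + y b), fun b hb =>
      Finset.single_le_sum (f := fun b => l b + y b) (fun _ _ => Nat.zero_le _)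
        (Finset.mem_range.mpr hb)⟩
  apply Good.step K0 (G := G) Finset.sdiff_subset hsub
  · intro e he
    rw [hD, mem_boxl] at he
    have := hK0 _ he.1
    omega
  · exact hu1
  · intro g hg g' hg' hne; exact hu2 g hg g' hg' hne
  · intro g hg e he hne
    by_contra hwt
    apply hne
    have hg' := (hmemG g).mp hg
    have he' := mem_boxl.mp he
    -- the row of `g` is beyond the row of `e`
    have hrow : e.2 < g.2 := by
      by_contra hcon
      apply hwt
      unfold wt
      have h1 := hK0 _ he'.1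
      rcases Nat.lt_or_ge g.2 e.2 with h2 | h2
      · have h3 : K0 * (g.2 + 1) ≤ K0 * e.2 := Nat.mul_le_mul_left _ h2
        have h4 : K0 * (g.2 + 1) = K0 * g.2 + K0 := by ring
        omega
      · have h3 : g.2 = e.2 := by omega
        rw [h3] at hg' ⊢
        omega
    have hce : c e.2 < y e.2 := by omega
    have hcμ : c e.2 ≤ μ := by
      by_cases h0 : c e.2 = 0
      · omega
      · exact (h.col _ he'.1 h0).1
    have hstar := h.star e.2 he'.1 hce
    apply tf_peel r S (c e.2) e.2 (Finset.Ico (l e.2 + y e.2 - c e.2) (l e.2 + y e.2)) ?_ hcμ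
    · intro k h1 h2; exact hScard k (by omega) h2
    · intro k h1 h2; exact (hstar k h1 h2).ne
    · intro k l h1 h2 h3; exact hinj k l (by omega) h2 h3
    · intro k h1 h2 s hs
      apply hu2 g hg _ (hSG k (by omega) h2 s hs)
      intro heq
      have h3 := hstar k h1 h2
      rw [← heq] at hrow
      simp only at hrow
      omega
    · intro s hs
      rw [Finset.mem_Ico] at hs
      apply hu2 g hg
      · rw [hmemG]; exact ⟨he'.1, by simp only; omega, hs.2⟩
      · intro heq
        rw [← heq] at hrow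
        simp only at hrow
        omega
    · rw [Nat.card_Ico]; omega
  · exact hg

/-- One point of multiplicity `μ` removes the rows before the pivot row. -/
lemma good_rowsl [CharZero K] {n μ : ℕ} {l y : ℕ → ℕ} {j0 p : ℕ} (hlow : ∀ b < j0, y b = 0)
    (hwhole : ∀ b, j0 ≤ b → b < p → y b < μ ∧ y b < y (b + 1)) {ms : Multiset ℕ} {s : ℕ}
    (hg : Good K ((boxl n l y).filter (fun e => p ≤ e.2)) ms s) :
    Good K (boxl n l y) (μ ::ₘ ms) (((boxl n l y).filter (fun e => e.2 < p)).card + s) := by
  classical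
  have hchain : ∀ k l, k < l → j0 ≤ k → l < p → y k < y l := by
    intro k l hkl hk
    induction l with
    | zero => omega
    | succ l ih =>
      intro hl
      have h1 := (hwhole l (by omega) (by omega)).2
      rcases Nat.lt_or_ge k l with h2 | h2
      · exact (ih h2 (by omega)).trans h1
      · have : k = l := by omega
        subst this; exact h1
  let r : ℕ → ℕ := fun k => if h : ∃ b, j0 ≤ b ∧ b < p ∧ y b = k then h.choose else p + k
  have hr1 : ∀ b, j0 ≤ b → b < p → r (y b) = b := by
    intro b hb1 hb2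
    have hex : ∃ b', j0 ≤ b' ∧ b' < p ∧ y b' = y b := ⟨b, hb1, hb2, rfl⟩
    have hh : r (y b) = hex.choose := by simp only [r]; rw [dif_pos hex]
    have h1 := hex.choose_spec
    rw [hh]
    rcases Nat.lt_trichotomy hex.choose b with h2 | h2 | h2
    · have := hchain _ _ h2 h1.1 hb2; omega
    · exact h2
    · have := hchain _ _ h2 hb1 h1.2.1; omega
  have hr2 : ∀ k, (r k < p ∧ y (r k) = k) ∨ r k = p + k := by
    intro k
    by_cases hex : ∃ b, j0 ≤ b ∧ b < p ∧ y b = k
    · left
      have hh : r k = hex.choose := by simp only [r]; rw [dif_pos hex]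
      rw [hh]
      exact ⟨hex.choose_spec.2.1, hex.choose_spec.2.2⟩
    · right; simp only [r]; rw [dif_neg hex]
  have hinj : ∀ k l, 0 < k → k < l → l ≤ μ → r k ≠ r l := by
    intro k l _ hkl _ heq
    rcases hr2 k with h1 | h1 <;> rcases hr2 l with h2 | h2
    · rw [heq] at h1; omega
    · omega
    · omega
    · omega
  let Gt : Finset (ℕ × ℕ) := ((Finset.Icc 1 μ).sigma fun k => Finset.range k).image
    fun s => (l (r s.1) + s.2, r s.1)
  have hGtcard : Gt.card = (idx μ).card := by
    rw [card_idx]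
    simp only [Gt]
    rw [Finset.card_image_of_injOn, Finset.card_sigma]
    · simp only [Finset.card_range]
      have h3 : ∑ k ∈ Finset.Icc 1 μ, k = ∑ k ∈ Finset.range (μ + 1), k := by
        rw [Finset.range_eq_Ico, Finset.sum_eq_sum_Ico_succ_bot (by omega)]
        simp only [zero_add]
        rfl
      rw [h3, Finset.sum_range_id, Nat.choose_two_right]
    · rintro ⟨k, a⟩ hk ⟨l, b⟩ hl heq
      rw [Finset.mem_coe, Finset.mem_sigma, Finset.mem_Icc] at hk hl
      simp only [Prod.mk.injEq] at heq
      obtain ⟨h1, h2⟩ := heq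
      have : k = l := by
        rcases Nat.lt_trichotomy k l with h3 | h3 | h3
        · exact absurd h2 (hinj k l hk.1.1 h3 hl.1.2)
        · exact h3
        · exact absurd h2.symm (hinj l k hl.1.1 h3 hk.1.2)
      subst this
      have : a = b := by omega
      subst this; rfl
  have huni : ∀ u : ℕ × ℕ → K, (∀ g ∈ Gt, tf μ u g = 0) → ∀ ij ∈ idx μ, u ij = 0 := by
    intro u hu
    apply tf_unisolvent r (fun k => (Finset.range k).image fun a => l (r k) + a)
      (fun k _ _ => by
        rw [Finset.card_image_of_injective _ (fun a b hab => by simpa using hab)]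
        simp) hinj
    intro k h1 h2 s hs
    apply hu
    obtain ⟨a, ha, rfl⟩ := Finset.mem_image.mp hs
    simp only [Gt, Finset.mem_image, Finset.mem_sigma, Sigma.exists]
    exact ⟨k, a, ⟨Finset.mem_Icc.mpr ⟨h1, h2⟩, ha⟩, rfl⟩
  have hdual := exists_dual Gt hGtcard huni
  choose! u hu1 hu2 using hdual
  have hsub : (boxl n l y).filter (fun e => e.2 < p) ⊆ Gt := by
    intro e he
    rw [Finset.mem_filter, mem_boxl] at he
    have h1 : j0 ≤ e.2 := by
      by_contra hcon
      have := hlow e.2 (by omega)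
      omega
    have h2 := hwhole e.2 h1 he.2
    simp only [Gt, Finset.mem_image, Finset.mem_sigma, Sigma.exists]
    refine ⟨y e.2, e.1 - l e.2, ⟨Finset.mem_Icc.mpr ⟨by omega, by omega⟩,
      Finset.mem_range.mpr (by omega)⟩, ?_⟩
    rw [hr1 e.2 h1 he.2]
    ext
    · simp only; omega
    · rfl
  obtain ⟨K0, hK0⟩ : ∃ K0, ∀ b < n, l b + y b ≤ K0 :=
    ⟨∑ b ∈ Finset.range n, (l b + y b), fun b hb =>
      Finset.single_le_sum (f := fun b => l b + y b) (fun _ _ => Nat.zero_le _)
        (Finset.mem_range.mpr hb)⟩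
  apply Good.step K0 (G := (boxl n l y).filter (fun e => e.2 < p)) (Finset.filter_subset _ _)
    (Finset.filter_subset _ _) ?_ u ?_ ?_ ?_ hg
  · intro e he
    rw [mem_boxl] at he
    have := hK0 _ he.1
    omega
  · intro g hg; exact hu1 g (hsub hg)
  · intro g hg g' hg' hne; exact hu2 g (hsub hg) g' (hsub hg') hne
  · intro g hg e he _
    rw [Finset.mem_filter, mem_boxl] at hg he
    unfold wt
    have h1 : K0 * (g.2 + 1) ≤ K0 * e.2 := Nat.mul_le_mul_left _ (by omega)
    have h2 : K0 * (g.2 + 1) = K0 * g.2 + K0 := by ring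
    have h3 := hK0 _ he.1.1
    omega

/-- In a stuck state, five points of multiplicity `μ` kill everything. -/
lemma good_fivel [CharZero K] {d μ : ℕ} {l y : ℕ → ℕ} {j0 p : ℕ}
    (hbd : ∀ b, 0 < y b → l b + y b ≤ d + 1 - b)
    (hlow : ∀ b < j0, y b = 0)
    (hwhole : ∀ b, j0 ≤ b → b < p → y b < μ ∧ y b < y (b + 1))
    (hshort : d + 1 - p < 2 * μ) :
    Good K (boxl (d + 1) l y) {μ, μ, μ, μ, μ} (boxl (d + 1) l y).card := by
  classical
  have h1 : Good K ((boxl (d + 1) l y).filter (fun e => p ≤ e.2)) {μ, μ, μ, μ}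
      ((boxl (d + 1) l y).filter (fun e => p ≤ e.2)).card := by
    apply good_four (p := p)
    intro e he
    rw [Finset.mem_filter, mem_boxl] at he
    have := hbd e.2 (by omega)
    exact ⟨he.2, by omega⟩
  have h2 := good_rowsl hlow hwhole h1
  have h3 : ((boxl (d + 1) l y).filter (fun e => e.2 < p)).card +
      ((boxl (d + 1) l y).filter (fun e => p ≤ e.2)).card = (boxl (d + 1) l y).card := by
    rw [← Finset.card_filter_add_card_filter_not (s := boxl (d + 1) l y) (fun e => e.2 < p)]
    congr 2
    apply Finset.filter_congr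
    intro e _; simp
  rw [h3] at h2
  exact h2

/-- Independence: every point of multiplicity `ν` comes early enough. -/
theorem good_mainHl [CharZero K] (H d : ℕ) (l : ℕ → ℕ) : ∀ (s : ℕ) (M : ℕ) (y : ℕ → ℕ)
    (L : Multiset ℕ),
    Multiset.card L ≤ s → InvH H d M y → (∀ m ∈ L, m ≤ M) → (∀ m ∈ L, m ≤ H) →
    (∀ ν ∈ L, 1 ≤ ν → Sge L ν + 2 * ν * (ν - 1) < (box (d + 1) y).card) →
    Good K (boxl (d + 1) l y) L (L.map kk).sum := by
  classical
  intro s
  induction s with
  | zero =>
    intro M y L hs _ _ _ _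
    have : L = 0 := Multiset.card_eq_zero.mp (by omega)
    subst this
    simpa using good_zero K (boxl (d + 1) l y) 0
  | succ s ih =>
    intro M y L hs hinv hM hH hcond
    by_cases hL0 : L = 0
    · subst hL0; simpa using good_zero K (boxl (d + 1) l y) 0
    -- the largest multiplicity
    obtain ⟨μ, hμL, hμmax⟩ : ∃ μ ∈ L, ∀ m ∈ L, m ≤ μ := by
      have hne : L.toFinset.Nonempty := by
        rw [Finset.nonempty_iff_ne_empty]; intro h; exact hL0 (Multiset.toFinset_eq_empty.mp h)
      refine ⟨L.toFinset.max' hne, Multiset.mem_toFinset.mp (Finset.max'_mem _ _), ?_⟩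
      intro m hm
      exact Finset.le_max' _ _ (Multiset.mem_toFinset.mpr hm)
    obtain ⟨L', rfl⟩ := Multiset.exists_cons_of_mem hμL
    simp only [Multiset.card_cons] at hs
    have hL'μ : ∀ m ∈ L', m ≤ μ := fun m hm => hμmax m (Multiset.mem_cons_of_mem hm)
    rcases Nat.eq_zero_or_pos μ with rfl | hμ0
    · have h1 := (ih M y L' (by omega) hinv (fun m hm => hM m (Multiset.mem_cons_of_mem hm))
        (fun m hm => hH m (Multiset.mem_cons_of_mem hm)) (by
          intro ν hν h1
          exact absurd (hL'μ ν hν) (by omega))).cons 0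
      simpa [kk] using h1
    have hμM : μ ≤ M := hM μ (Multiset.mem_cons_self _ _)
    have hμH : μ ≤ H := hH μ (Multiset.mem_cons_self _ _)
    have hcμ := hcond μ (Multiset.mem_cons_self _ _) hμ0
    rw [Sge_cons_of_le le_rfl] at hcμ
    have hkμ := two_mul_kk μ
    have hkpos : 0 < kk μ := Nat.choose_pos (by omega)
    have hDpos : 0 < (box (d + 1) y).card := by omega
    have hne : ∃ b, 0 < y b := by
      obtain ⟨e, he⟩ := Finset.card_pos.mp hDpos
      rw [mem_box] at he
      exact ⟨e.2, by omega⟩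
    obtain ⟨j0, p, hj0p, hpd, hlow, hpos, hwhole, hp⟩ := hinv.exists_pivot hμM hne
    by_cases hmove : μ ≤ y p ∧ 2 * μ ≤ d + 1 - p
    · -- the move is possible
      obtain ⟨c, r, hslice, hinv'⟩ := hinv.move (by omega) hμM hj0p hlow hpos hwhole hmove.1 hmove.2
      have hcard : (box (d + 1) y).card = (box (d + 1) (fun b => y b - c b)).card + kk μ := by
        rw [card_box, card_box, kk, ← hslice.sum, ← Finset.sum_add_distrib]
        apply Finset.sum_congr rfl
        intro b hb
        have := hslice.le b (Finset.mem_range.mp hb)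
        omega
      have h1 := ih μ (fun b => y b - c b) L' (by omega) hinv' hL'μ
        (fun m hm => hH m (Multiset.mem_cons_of_mem hm)) (by
        intro ν hν h2
        have h3 := hcond ν (Multiset.mem_cons_of_mem hν) h2
        rw [Sge_cons_of_le (hL'μ ν hν)] at h3
        omega)
      have h2 := slice_goodl hslice h1
      rw [Multiset.map_cons, Multiset.sum_cons]
      exact h2
    · -- stuck: impossible
      exfalso
      have hshort : d + 1 - p < 2 * μ := by
        rcases hp with hp | hp
        · by_contra hcon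
          exact hmove ⟨hp, by omega⟩
        · omega
      have hstuck := stuck_bound (fun b => (hinv.bd b).trans (min_le_right _ _)) hj0p hpd hlow
        hwhole hshort
      have hnum := stuck_numbers μ hμ0
      omega

/-- Emptiness: five points in reserve, which are at least as big as all the points that
come too late. -/
theorem good_emptyHl [CharZero K] (H d a1 a2 a3 a4 a5 : ℕ) (l : ℕ → ℕ) :
    ∀ (s : ℕ) (M : ℕ) (y : ℕ → ℕ) (L : Multiset ℕ),
    Multiset.card L ≤ s → InvH H d M y → (∀ b, 0 < y b → l b + y b ≤ d + 1 - b) →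
    (∀ m ∈ L, m ≤ M) → (∀ m ∈ L, m ≤ H) →
    (∀ m ∈ L, (m ≤ a1 ∧ m ≤ a2 ∧ m ≤ a3 ∧ m ≤ a4 ∧ m ≤ a5) ∨
      Sge L m + 2 * m * (m - 1) < (box (d + 1) y).card) →
    (box (d + 1) y).card ≤ (L.map kk).sum →
    Good K (boxl (d + 1) l y) ({a1, a2, a3, a4, a5} + L) (box (d + 1) y).card := by
  classical
  intro s
  induction s with
  | zero =>
    intro M y L hs _ _ _ _ _ hsum
    have : L = 0 := Multiset.card_eq_zero.mp (by omega)
    subst this
    have h0 : (box (d + 1) y).card = 0 := by simpa using hsum
    rw [h0]; exact good_zero K _ _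
  | succ s ih =>
    intro M y L hs hinv hl hM hH ha hsum
    rcases Nat.eq_zero_or_pos (box (d + 1) y).card with hD0 | hDpos
    · rw [hD0]; exact good_zero K _ _
    have hL0 : L ≠ 0 := by
      rintro rfl
      rw [Multiset.map_zero, Multiset.sum_zero] at hsum
      omega
    obtain ⟨μ, hμL, hμmax⟩ : ∃ μ ∈ L, ∀ m ∈ L, m ≤ μ := by
      have hne : L.toFinset.Nonempty := by
        rw [Finset.nonempty_iff_ne_empty]; intro h; exact hL0 (Multiset.toFinset_eq_empty.mp h)
      refine ⟨L.toFinset.max' hne, Multiset.mem_toFinset.mp (Finset.max'_mem _ _), ?_⟩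
      intro m hm
      exact Finset.le_max' _ _ (Multiset.mem_toFinset.mpr hm)
    obtain ⟨L', rfl⟩ := Multiset.exists_cons_of_mem hμL
    have hL'μ : ∀ m ∈ L', m ≤ μ := fun m hm => hμmax m (Multiset.mem_cons_of_mem hm)
    have hμM : μ ≤ M := hM μ (Multiset.mem_cons_self _ _)
    have hμH : μ ≤ H := hH μ (Multiset.mem_cons_self _ _)
    rcases Nat.eq_zero_or_pos μ with rfl | hμ0
    · exfalso
      have : ((0 ::ₘ L').map kk).sum = 0 := by
        apply Multiset.sum_eq_zero
        intro x hx
        obtain ⟨m, hm, rfl⟩ := Multiset.mem_map.mp hx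
        have := hμmax m hm
        have : m = 0 := by omega
        subst this; rfl
      omega
    have hne : ∃ b, 0 < y b := by
      obtain ⟨e, he⟩ := Finset.card_pos.mp hDpos
      rw [mem_box] at he
      exact ⟨e.2, by omega⟩
    obtain ⟨j0, p, hj0p, hpd, hlow, hpos, hwhole, hp⟩ := hinv.exists_pivot hμM hne
    simp only [Multiset.card_cons] at hs
    by_cases hmove : μ ≤ y p ∧ 2 * μ ≤ d + 1 - p
    · obtain ⟨c, r, hslice, hinv'⟩ := hinv.move hμ0 hμM hj0p hlow hpos hwhole hmove.1 hmove.2
      have hcard : (box (d + 1) y).card = (box (d + 1) (fun b => y b - c b)).card + kk μ := by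
        rw [card_box, card_box, kk, ← hslice.sum, ← Finset.sum_add_distrib]
        apply Finset.sum_congr rfl
        intro b hb
        have := hslice.le b (Finset.mem_range.mp hb)
        omega
      rw [Multiset.map_cons, Multiset.sum_cons] at hsum
      have h1 := ih μ (fun b => y b - c b) L' (by omega) hinv'
        (fun b hb => by
          have := hl b (by omega)
          omega) hL'μ
        (fun m hm => hH m (Multiset.mem_cons_of_mem hm))
        (fun m hm => by
          rcases ha m (Multiset.mem_cons_of_mem hm) with h3 | h3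
          · exact Or.inl h3
          · right
            rw [Sge_cons_of_le (hL'μ m hm)] at h3
            omega) (by omega)
      have h2 := slice_goodl hslice h1
      rw [← Multiset.add_cons] at h2
      have h3 : (μ + 1).choose 2 + (box (d + 1) fun b => y b - c b).card =
          (box (d + 1) y).card := by
        rw [hcard]
        change kk μ + _ = _
        omega
      rwa [h3] at h2
    · have hshort : d + 1 - p < 2 * μ := by
        rcases hp with hp | hp
        · by_contra hcon
          exact hmove ⟨hp, by omega⟩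
        · omega
      have hbd : ∀ b, y b ≤ d + 1 - b := fun b => (hinv.bd b).trans (min_le_right _ _)
      rcases ha μ (Multiset.mem_cons_self _ _) with ha' | ha'
      · have h5 := (good_fivel (K := K) hl hlow hwhole hshort).raise_five ha'.1 ha'.2.1
          ha'.2.2.1 ha'.2.2.2.1 ha'.2.2.2.2
        have h6 := h5.add (μ ::ₘ L')
        rw [add_comm (μ ::ₘ L'), card_boxl_eq] at h6
        exact h6
      · exfalso
        have hstuck := stuck_bound hbd hj0p hpd hlow hwhole hshort
        have hnum := stuck_numbers μ hμ0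
        rw [Sge_cons_of_le le_rfl] at ha'
        omega

end Pool.Agent.helper7.Hex
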