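import Mathlib
import Pool.Agent.helper89.Segre2.Large
import Pool.Agent.helper7.Hex.Rows

set_option autoImplicit false

/-!
# Pentagons with a sharp corner at the origin
-/

namespace Pool.Agent.helper7.Hex

open Pool.Agent.helper89.Segre

/-- the pentagon `x ≤ A`, `y ≤ B`, `x + y ≤ D` -/
def pent (A B D : ℕ) : Finset (ℕ × ℕ) := (tri D).filter fun e => e.1 ≤ A ∧ e.2 ≤ B

lemma mem_pent {A B D : ℕ} {e : ℕ × ℕ} :
    e ∈ pent A B D ↔ e.1 + e.2 ≤ D ∧ e.1 ≤ A ∧ e.2 ≤ B := by
  unfold pent; rw [Finset.mem_filter, mem_tri]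

/-- left ends of the diagonal rows -/
def Lp (B D b : ℕ) : ℕ := D - b - B

/-- lengths of the diagonal rows -/
def Yp (A B D b : ℕ) : ℕ := min (A + 1) (D + 1 - b) - (D - b - B)

lemma flip_boxl (A B D : ℕ) :
    (boxl (D + 1) (Lp B D) (Yp A B D)).image (fun e => (e.1, D - e.1 - e.2)) = pent A B D := by
  ext e
  rw [Finset.mem_image, mem_pent]
  constructor
  · rintro ⟨f, hf, rfl⟩
    rw [mem_boxl] at hf
    unfold Lp Yp at hf
    simp only
    omega
  · intro h
    refine ⟨(e.1, D - e.1 - e.2), ?_, ?_⟩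
    · rw [mem_boxl]
      unfold Lp Yp
      simp only
      omega
    · ext
      · rfl
      · simp only; omega

lemma boxl_subset (A B D : ℕ) : boxl (D + 1) (Lp B D) (Yp A B D) ⊆ tri D := by
  intro e he
  rw [mem_boxl] at he
  unfold Lp Yp at he
  rw [mem_tri]
  omega

lemma card_pent (A B D : ℕ) : (box (D + 1) (Yp A B D)).card = (pent A B D).card := by
  rw [← card_boxl_eq _ (Lp B D), ← flip_boxl, Finset.card_image_of_injOn]
  intro a ha b hb hab
  have h1 := mem_tri.mp (boxl_subset A B D ha)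
  have h2 := mem_tri.mp (boxl_subset A B D hb)
  simp only [Prod.mk.injEq] at hab
  ext
  · exact hab.1
  · omega

lemma inv_pent {A B D M : ℕ} (hD : D ≤ A + B) (hM : M ≤ B + 1) :
    InvH (min A B + 1) D M (Yp A B D) := by
  constructor
  · intro b
    unfold Yp
    omega
  · intro b hb _
    unfold Yp
    omega
  · intro b hb _
    unfold Yp
    omega

lemma pent_indep {A B D M : ℕ} (hD : D ≤ A + B) (hM : M ≤ min A B + 1) {L : Multiset ℕ}
    (hL : ∀ m ∈ L, m ≤ M) (hsum : (L.map kk).sum + 2 * M * (M - 1) < (pent A B D).card) :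
    Good ℂ (pent A B D) L (L.map kk).sum := by
  have h1 := good_mainHl (K := ℂ) (min A B + 1) D (Lp B D) _ M (Yp A B D) L le_rfl
    (inv_pent hD (by omega)) hL (fun m hm => (hL m hm).trans hM) (by
      intro ν hν _
      rw [card_pent]
      have h2 := Sge_le L ν
      have h3 := hL ν hν
      have h4 : 2 * ν * (ν - 1) ≤ 2 * M * (M - 1) :=
        Nat.mul_le_mul (Nat.mul_le_mul_left _ h3) (Nat.sub_le_sub_right h3 1)
      omega)
  have h2 := Good.flip (boxl_subset A B D) h1
  rwa [flip_boxl] at h2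

lemma pent_empty {A B D M : ℕ} (hD : D ≤ A + B) (hM0 : 0 < M) (hM : M ≤ min A B + 1)
    {L : Multiset ℕ} (hL : ∀ m ∈ L, m ≤ M)
    (hsum : (pent A B D).card + 5 * kk M ≤ (L.map kk).sum) :
    Good ℂ (pent A B D) L (pent A B D).card := by
  have hκ : 0 < kk M := Nat.choose_pos (by omega)
  have hcard : 5 ≤ Multiset.card L := by
    have := sum_kk_le hL
    exact Nat.le_of_mul_le_mul_right ((show 5 * kk M ≤ (L.map kk).sum by omega).trans this) hκ
  obtain ⟨S, L', hSL, hS5, hSx, hSM⟩ := pick M 5 _ hcard hL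
  have hSsum := sum_kk_le hSM
  rw [hS5] at hSsum
  have hsumS : (L.map kk).sum = (S.map kk).sum + (L'.map kk).sum := by
    rw [hSL, Multiset.map_add, Multiset.sum_add]
  have hL'M : ∀ m ∈ L', m ≤ M := fun m hm => hL m (by
    rw [hSL]; exact Multiset.mem_add.mpr (Or.inr hm))
  obtain ⟨a1, S1, rfl, hS4⟩ := exists_cons hS5
  obtain ⟨a2, S2, rfl, hS3⟩ := exists_cons hS4
  obtain ⟨a3, S3, rfl, hS2⟩ := exists_cons hS3
  obtain ⟨a4, S4, rfl, hS1⟩ := exists_cons hS2
  obtain ⟨a5, rfl⟩ := Multiset.card_eq_one.mp hS1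
  have h1 := good_emptyHl (K := ℂ) (min A B + 1) D a1 a2 a3 a4 a5 (Lp B D) _ M (Yp A B D) L' le_rfl
    (inv_pent hD (by omega)) (by
      intro b hb
      unfold Yp at hb
      unfold Lp Yp
      omega) hL'M (fun m hm => (hL'M m hm).trans hM) (by
      intro x hx
      left
      refine ⟨hSx a1 (by simp) x hx, hSx a2 (by simp) x hx, hSx a3 (by simp) x hx,
        hSx a4 (by simp) x hx, hSx a5 (by simp) x hx⟩)
      (by
        rw [card_pent]
        omega)
  have h2 := Good.flip (boxl_subset A B D) h1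
  rw [flip_boxl, card_pent] at h2
  rw [hSL]
  exact h2

end Pool.Agent.helper7.Hex
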