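import Mathlib
import Pool.Agent.helper89.Segre2.Flip

set_option autoImplicit false

/-!
# More symmetries of the set of exponents
-/

namespace Pool.Agent.helper7.Hex

open Pool.Agent.helper89.Segre

/-- exchange of the two coordinates -/
lemma good_swap {D : Finset (ℕ × ℕ)} {ms : Multiset ℕ} {r : ℕ} (h : Good ℂ D ms r) :
    Good ℂ (D.image fun e => (e.2, e.1)) ms r := by
  classical
  obtain ⟨L, hL1, hL2, hL3⟩ := h
  have hinj : Function.Injective (fun e : ℕ × ℕ => (e.2, e.1)) := by
    intro a b hab
    simp only [Prod.mk.injEq] at hab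
    ext
    · exact hab.2
    · exact hab.1
  refine ⟨L.map fun x => ((x.1.2, x.1.1), x.2), ?_, ?_, ?_⟩
  · rw [Multiset.map_map, ← hL1]; rfl
  · intro x hx
    obtain ⟨z, hz, rfl⟩ := Multiset.mem_map.mp hx
    exact ⟨(hL2 z hz).2, (hL2 z hz).1⟩
  refine hL3.transfer (LinearMap.funLeft ℂ ℂ (fun e : ℕ × ℕ => (e.2, e.1))) ?_ ?_
    (Finset.card_image_of_injective _ hinj)
  · intro c hc
    rw [mem_Kr_iff] at hc ⊢
    refine ⟨fun e he => ?_, ?_⟩
    · apply hc.1
      intro h4
      obtain ⟨f, hf, hfe⟩ := Finset.mem_image.mp h4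
      rw [hinj hfe] at hf
      exact he hf
    · rintro x hx ⟨i, j⟩ hij
      rw [mem_idx] at hij
      have h1 := hc.2 _ (Multiset.mem_map_of_mem _ hx) (j, i) (by rw [mem_idx]; simp only at hij ⊢; omega)
      rw [Finset.sum_image (fun a _ b _ h => hinj h)] at h1
      rw [← h1]
      apply Finset.sum_congr rfl
      intro e _
      simp only [LinearMap.funLeft_apply, pw]
      ring
  · intro c hc h0
    ext e
    by_cases he : e ∈ D.image fun e => (e.2, e.1)
    · obtain ⟨f, hf, rfl⟩ := Finset.mem_image.mp he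
      exact congrFun h0 f
    · exact hc.1 e he

lemma binom_reflect : ∀ (a N i : ℕ), a ≤ N → (((N - a).choose i : ℕ) : ℂ) =
    ∑ k ∈ Finset.range (i + 1), ((-1) ^ k * (((N - k).choose (i - k) : ℕ) : ℂ)) *
      ((a.choose k : ℕ) : ℂ) := by
  intro a
  induction a with
  | zero =>
    intro N i _
    rw [Finset.sum_range_succ']
    simp
  | succ a ih =>
    intro N i hN
    cases i with
    | zero => simp
    | succ i =>
      obtain ⟨N, rfl⟩ := Nat.exists_eq_add_of_le' (show 1 ≤ N by omega)
      have h1 := ih (N + 1) (i + 1) (by omega)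
      have h2 := ih N i (by omega)
      have h3 : (((N + 1 - a).choose (i + 1) : ℕ) : ℂ) =
          (((N - a).choose i : ℕ) : ℂ) + (((N - a).choose (i + 1) : ℕ) : ℂ) := by
        rw [show N + 1 - a = (N - a) + 1 by omega, Nat.choose_succ_succ']
        push_cast; ring
      have h4 : ∑ k ∈ Finset.range (i + 1 + 1), ((-1) ^ k *
          (((N + 1 - k).choose (i + 1 - k) : ℕ) : ℂ)) * (((a + 1).choose k : ℕ) : ℂ) =
          ∑ k ∈ Finset.range (i + 1 + 1), ((-1) ^ k *
          (((N + 1 - k).choose (i + 1 - k) : ℕ) : ℂ)) * ((a.choose k : ℕ) : ℂ) -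
          ∑ k ∈ Finset.range (i + 1), ((-1) ^ k * (((N - k).choose (i - k) : ℕ) : ℂ)) *
            ((a.choose k : ℕ) : ℂ) := by
        rw [Finset.sum_range_succ' _ (i + 1), Finset.sum_range_succ' _ (i + 1),
          add_sub_right_comm, ← Finset.sum_sub_distrib]
        congr 1
        · apply Finset.sum_congr rfl
          intro k _
          rw [Nat.choose_succ_succ' a k, show N + 1 - (k + 1) = N - k by omega,
            show i + 1 - (k + 1) = i - k by omega]
          push_cast
          ring
        · simp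
      rw [h4, ← h1, ← h2, h3, show N + 1 - (a + 1) = N - a by omega]
      ring

/-- reflection of the first coordinate -/
lemma good_hflip {N : ℕ} {D : Finset (ℕ × ℕ)} (hD : ∀ e ∈ D, e.1 ≤ N) {ms : Multiset ℕ} {r : ℕ}
    (h : Good ℂ D ms r) : Good ℂ (D.image fun e => (N - e.1, e.2)) ms r := by
  classical
  obtain ⟨L, hL1, hL2, hL3⟩ := h
  have hinj : Set.InjOn (fun e : ℕ × ℕ => (N - e.1, e.2)) D := by
    intro a ha b hb hab
    have h1 := hD a ha
    have h2 := hD b hb
    simp only [Prod.mk.injEq] at hab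
    ext
    · omega
    · exact hab.2
  refine ⟨L.map fun x => ((x.1.1⁻¹, x.1.2), x.2), ?_, ?_, ?_⟩
  · rw [Multiset.map_map, ← hL1]; rfl
  · intro x hx
    obtain ⟨z, hz, rfl⟩ := Multiset.mem_map.mp hx
    exact ⟨inv_ne_zero (hL2 z hz).1, (hL2 z hz).2⟩
  let T : (ℕ × ℕ → ℂ) →ₗ[ℂ] (ℕ × ℕ → ℂ) :=
    { toFun := fun c e => if e.1 ≤ N then c (N - e.1, e.2) else 0
      map_add' := by
        intro a b; ext e
        simp only [Pi.add_apply]
        split_ifs <;> simp
      map_smul' := by
        intro a b; ext e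
        simp only [Pi.smul_apply, smul_eq_mul, RingHom.id_apply]
        split_ifs <;> simp }
  refine hL3.transfer T ?_ ?_ (Finset.card_image_of_injOn hinj)
  · intro c hc
    rw [mem_Kr_iff] at hc ⊢
    refine ⟨fun e he => ?_, ?_⟩
    · change (if e.1 ≤ N then c (N - e.1, e.2) else 0) = 0
      split_ifs with h3
      · apply hc.1
        intro h4
        obtain ⟨f, hf, hfe⟩ := Finset.mem_image.mp h4
        have h5 := hD f hf
        simp only [Prod.mk.injEq] at hfe
        apply he
        have : e = f := by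
          ext
          · omega
          · exact hfe.2.symm
        rw [this]; exact hf
      · rfl
    · rintro x hx ⟨i, j⟩ hij
      rw [mem_idx] at hij
      simp only at hij
      have hs := (hL2 x hx).1
      have h1 : ∀ k ∈ Finset.range (i + 1), ∑ e ∈ D, c (N - e.1, e.2) *
          (pw (x.1.1⁻¹, x.1.2) (N - e.1, e.2) * (((N - e.1).choose k : ℕ) : ℂ) *
            ((e.2.choose j : ℕ) : ℂ)) = 0 := by
        intro k hk
        rw [Finset.mem_range] at hk
        have h2 := hc.2 _ (Multiset.mem_map_of_mem _ hx) (k, j)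
          (by rw [mem_idx]; simp only; omega)
        rw [Finset.sum_image hinj] at h2
        exact h2
      have h3 : ∑ e ∈ D, T c e * (pw x.1 e * ((e.1.choose i : ℕ) : ℂ) * ((e.2.choose j : ℕ) : ℂ)) =
          ∑ k ∈ Finset.range (i + 1), (x.1.1 ^ N * ((-1) ^ k * (((N - k).choose (i - k) : ℕ) : ℂ))) *
            ∑ e ∈ D, c (N - e.1, e.2) *
          (pw (x.1.1⁻¹, x.1.2) (N - e.1, e.2) * (((N - e.1).choose k : ℕ) : ℂ) *
            ((e.2.choose j : ℕ) : ℂ)) := by
        simp only [Finset.mul_sum]
        rw [Finset.sum_comm]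
        apply Finset.sum_congr rfl
        intro e he
        have h4 := hD e he
        have h5 := binom_reflect (N - e.1) N i (Nat.sub_le _ _)
        rw [show N - (N - e.1) = e.1 by omega] at h5
        have h6 : T c e = c (N - e.1, e.2) := if_pos h4
        have h7 : x.1.1 ^ N * (x.1.1⁻¹) ^ (N - e.1) = x.1.1 ^ e.1 := by
          rw [inv_pow]
          have : x.1.1 ^ N = x.1.1 ^ e.1 * x.1.1 ^ (N - e.1) := by
            rw [← pow_add]; congr 1; omega
          rw [this]
          field_simp
        rw [h6, h5]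
        simp only [pw]
        rw [Finset.mul_sum, Finset.sum_mul, Finset.mul_sum]
        apply Finset.sum_congr rfl
        intro k _
        rw [← h7]
        ring
      simp only
      rw [h3]
      apply Finset.sum_eq_zero
      intro k hk
      rw [h1 k hk, mul_zero]
  · intro c hc h0
    ext e
    by_cases he : e ∈ D.image fun e => (N - e.1, e.2)
    · obtain ⟨f, hf, rfl⟩ := Finset.mem_image.mp he
      have := congrFun h0 f
      change (if f.1 ≤ N then c (N - f.1, f.2) else 0) = 0 at this
      rw [if_pos (hD f hf)] at this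
      exact this
    · exact hc.1 e he

/-- point reflection -/
lemma good_reflect {N B : ℕ} {D : Finset (ℕ × ℕ)} (hD : ∀ e ∈ D, e.1 ≤ N ∧ e.2 ≤ B)
    {ms : Multiset ℕ} {r : ℕ}
    (h : Good ℂ D ms r) : Good ℂ (D.image fun e => (N - e.1, B - e.2)) ms r := by
  classical
  have h1 := good_hflip (N := N) (fun e he => (hD e he).1) h
  have h2 := good_swap h1
  have h3 := good_hflip (N := B) (by
    intro e he
    rw [Finset.image_image] at he
    obtain ⟨f, hf, rfl⟩ := Finset.mem_image.mp he
    exact (hD f hf).2) h2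
  have h4 := good_swap h3
  rw [Finset.image_image, Finset.image_image, Finset.image_image] at h4
  exact h4

end Pool.Agent.helper7.Hex
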