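import Mathlib
import Pool.Agent.helper7.Hex.Pent
import Pool.Agent.helper7.Hex.Sym

set_option autoImplicit false

/-!
# Pentagons with a partial column, and abstract gluing along a column
-/

namespace Pool.Agent.helper7.Hex

open Pool.Agent.helper89.Segre

/-- Gluing along a column. -/
lemma glue_abs {U W : Finset (ℕ × ℕ)} {H n NA NB : ℕ} {A B : Multiset ℕ}
    (hU : ∀ e ∈ U, H < e.1) (hW : ∀ e ∈ W, e.1 < H)
    (gA : Good ℂ (U ∪ col H (U.card + n - NA) n) A NA)
    (gB : Good ℂ (W ∪ col H 0 (NB - W.card)) B NB)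
    (h1 : U.card ≤ NA) (h2 : NA ≤ U.card + n) (h3 : W.card ≤ NB) (h4 : NB ≤ W.card + n)
    (h5 : U.card + n + W.card ≤ NA + NB) :
    Good ℂ (U ∪ col H 0 n ∪ W) (A + B) (U ∪ col H 0 n ∪ W).card := by
  classical
  set bA := U.card + n - NA with hbA
  have hdU : ∀ a b, Disjoint U (col H a b) := by
    intro a b
    rw [Finset.disjoint_left]
    intro e he he'
    have := hU e he
    have := mem_col.mp he'
    omega
  have hdW : ∀ a b, Disjoint W (col H a b) := by
    intro a b
    rw [Finset.disjoint_left]
    intro e he he'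
    have := hW e he
    have := mem_col.mp he'
    omega
  have hdUW : Disjoint U W := by
    rw [Finset.disjoint_left]
    intro e he he'
    have := hU e he
    have := hW e he'
    omega
  have hcard : (U ∪ col H 0 n ∪ W).card = U.card + n + W.card := by
    rw [Finset.card_union_of_disjoint, Finset.card_union_of_disjoint (hdU _ _), card_col,
      Nat.sub_zero]
    rw [Finset.disjoint_union_left]
    exact ⟨hdUW, (hdW _ _).symm⟩
  have hBcard : (W ∪ col H 0 (NB - W.card)).card = NB := by
    rw [Finset.card_union_of_disjoint (hdW _ _), card_col]; omega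
  have gB1 : Good ℂ (W ∪ col H 0 (NB - W.card)) B (W ∪ col H 0 (NB - W.card)).card := by
    rw [hBcard]; exact gB
  have hsub : W ∪ col H 0 bA ⊆ W ∪ col H 0 (NB - W.card) := by
    intro e he
    rcases Finset.mem_union.mp he with he | he
    · exact Finset.mem_union_left _ he
    · apply Finset.mem_union_right
      rw [mem_col] at he ⊢
      omega
  have gB2 : Good ℂ (W ∪ col H 0 bA) B (W ∪ col H 0 bA).card := gB1.of_subset hsub
  have hAcard : (U ∪ col H bA n).card = NA := by
    rw [Finset.card_union_of_disjoint (hdU _ _), card_col]; omega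
  have gA2 : Good ℂ (U ∪ col H bA n) A (U ∪ col H bA n).card := by
    rw [hAcard]; exact gA
  have := Good.split (DA := U ∪ col H bA n) (DB := W ∪ col H 0 bA) (by
    intro e he e' he'
    rcases Finset.mem_union.mp he with he | he <;> rcases Finset.mem_union.mp he' with he' | he'
    · have := hU e he
      have := hW e' he'
      omega
    · have := hU e he
      have := mem_col.mp he'
      omega
    · have := mem_col.mp he
      have := hW e' he'
      omega
    · have := mem_col.mp he
      have := mem_col.mp he'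
      omega) gA2 gB2
  have hset : U ∪ col H bA n ∪ (W ∪ col H 0 bA) = U ∪ col H 0 n ∪ W := by
    have hbn : bA ≤ n := by omega
    ext e
    simp only [Finset.mem_union, mem_col]
    constructor
    · rintro ((h | h) | (h | h))
      · exact Or.inl (Or.inl h)
      · exact Or.inl (Or.inr ⟨h.1, by omega, h.2.2⟩)
      · exact Or.inr h
      · exact Or.inl (Or.inr ⟨h.1, by omega, by omega⟩)
    · rintro ((h | h) | h)
      · exact Or.inl (Or.inl h)
      · by_cases hb : bA ≤ e.2
        · exact Or.inl (Or.inr ⟨h.1, hb, h.2.2⟩)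
        · exact Or.inr (Or.inr ⟨h.1, by omega, by omega⟩)
      · exact Or.inr (Or.inl h)
  have hBcard2 : (W ∪ col H 0 bA).card = W.card + bA := by
    rw [Finset.card_union_of_disjoint (hdW _ _), card_col, Nat.sub_zero]
  rw [hset, hAcard, hBcard2] at this
  rwa [show NA + (W.card + bA) = (U ∪ col H 0 n ∪ W).card by omega] at this

lemma card_shift (D : Finset (ℕ × ℕ)) (H : ℕ) :
    (D.image fun e => (e.1 + H, e.2)).card = D.card := by
  apply Finset.card_image_of_injective
  intro a b hab
  simp only [Prod.mk.injEq] at hab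
  ext
  · omega
  · exact hab.2

/-- the pentagon without its first column -/
def pent' (A B D : ℕ) : Finset (ℕ × ℕ) := (pent (A - 1) B (D - 1)).image fun e => (e.1 + 1, e.2)

lemma mem_pent' {A B D : ℕ} {e : ℕ × ℕ} (hA : 1 ≤ A) (hD : 1 ≤ D) :
    e ∈ pent' A B D ↔ 1 ≤ e.1 ∧ e ∈ pent A B D := by
  unfold pent'
  rw [Finset.mem_image]
  constructor
  · rintro ⟨f, hf, rfl⟩
    rw [mem_pent] at hf ⊢
    simp only
    omega
  · rintro ⟨h1, h2⟩
    rw [mem_pent] at h2
    refine ⟨(e.1 - 1, e.2), ?_, ?_⟩
    · rw [mem_pent]; simp only; omega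
    · ext
      · simp only; omega
      · rfl

lemma card_pent' (A B D : ℕ) : (pent' A B D).card = (pent (A - 1) B (D - 1)).card :=
  card_shift _ _

lemma pent_union {A B D : ℕ} (hA : 1 ≤ A) (hD : 1 ≤ D) (hBD : B ≤ D) :
    pent' A B D ∪ col 0 0 (B + 1) = pent A B D := by
  ext e
  rw [Finset.mem_union, mem_pent' hA hD, mem_col, mem_pent]
  omega

lemma card_pent_succ {A B D : ℕ} (hA : 1 ≤ A) (hD : 1 ≤ D) (hBD : B ≤ D) :
    (pent A B D).card = (pent (A - 1) B (D - 1)).card + (B + 1) := by
  rw [← pent_union hA hD hBD, Finset.card_union_of_disjoint, card_col, card_pent', Nat.sub_zero]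
  rw [Finset.disjoint_left]
  intro e he he'
  have h1 := (mem_pent' hA hD).mp he
  have h2 := mem_col.mp he'
  omega

/-- A pentagon with a partial first column. -/
lemma pent_half {A B D M : ℕ} {ms : Multiset ℕ} (hA : 1 ≤ A) (hD : 1 ≤ D) (hBD : B ≤ D)
    (hAB : D ≤ A + B) (hM0 : 0 < M) (hM : M ≤ min (A - 1) B + 1) (hms : ∀ m ∈ ms, m ≤ M)
    (h1 : (pent (A - 1) B (D - 1)).card + 5 * kk M ≤ (ms.map kk).sum)
    (h2 : (ms.map kk).sum + 2 * M * (M - 1) < (pent A B D).card) :
    Good ℂ (pent' A B D ∪ col 0 ((pent' A B D).card + (B + 1) - (ms.map kk).sum) (B + 1)) ms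
      (ms.map kk).sum := by
  have g1 := pent_indep hAB (show M ≤ min A B + 1 by omega) hms h2
  have g2 := (pent_empty (A := A - 1) (B := B) (D := D - 1) (by omega) hM0 hM hms h1).shift 1
  rw [← pent_union hA hD hBD] at g1
  have hc := card_pent_succ hA hD hBD
  apply Good.interp (R := pent' A B D) (H := 0) (n := B + 1)
  · intro i j j' h3 h4
    rw [mem_pent' hA hD, mem_pent] at h3 ⊢
    simp only at h3 ⊢
    omega
  · intro e he
    have := ((mem_pent' hA hD).mp he).1
    omega
  · exact g1
  · rw [card_pent']; exact g2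
  · rw [card_pent']; omega
  · rw [card_pent']; omega

end Pool.Agent.helper7.Hex
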