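import Mathlib
import Pool.Agent.helper7.Hex.Half

set_option autoImplicit false

/-!
# Hexagons
-/

namespace Pool.Agent.helper7.Hex

open Pool.Agent.helper89.Segre

/-- the triangle of side `d` without three corners -/
def hex (a b c d : ℕ) : Finset (ℕ × ℕ) :=
  (tri d).filter fun e => b ≤ e.1 + e.2 ∧ e.1 + a ≤ d ∧ e.2 + c ≤ d

lemma mem_hex {a b c d : ℕ} {e : ℕ × ℕ} :
    e ∈ hex a b c d ↔ e.1 + e.2 ≤ d ∧ b ≤ e.1 + e.2 ∧ e.1 + a ≤ d ∧ e.2 + c ≤ d := by
  unfold hex; rw [Finset.mem_filter, mem_tri]

/-- From the critical number of conditions to all numbers of conditions. -/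
lemma good_of_critical {D : Finset (ℕ × ℕ)} {M : ℕ} (hM : 0 < M)
    (crit : ∀ S : Multiset ℕ, (∀ m ∈ S, m ≤ M) → D.card ≤ (S.map kk).sum →
      (S.map kk).sum < D.card + kk M → Good ℂ D S D.card) :
    ∀ S : Multiset ℕ, (∀ m ∈ S, m ≤ M) → Good ℂ D S (min (S.map kk).sum D.card) := by
  have hover : ∀ S : Multiset ℕ, (∀ m ∈ S, m ≤ M) → D.card ≤ (S.map kk).sum →
      Good ℂ D S D.card := by
    intro S
    induction S using Multiset.induction_on with
    | empty =>
      intro _ h
      have h0 : D.card = 0 := by simpa using h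
      rw [h0]; exact good_zero ℂ _ _
    | cons m S ih =>
      intro h1 h2
      by_cases h3 : ((m ::ₘ S).map kk).sum < D.card + kk M
      · exact crit _ h1 h2 h3
      · rw [Multiset.map_cons, Multiset.sum_cons] at h3
        have hm := kk_mono (h1 m (Multiset.mem_cons_self _ _))
        exact (ih (fun x hx => h1 x (Multiset.mem_cons_of_mem hx)) (by omega)).cons m
  intro S hS
  rcases le_total D.card (S.map kk).sum with h | h
  · rw [min_eq_right h]
    exact hover S hS h
  · rw [min_eq_left h]
    set k := D.card - (S.map kk).sum with hk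
    apply Good.drop k
    have h1 : (S.map kk).sum + k = D.card := by omega
    rw [h1]
    apply hover
    · intro m hm
      rcases Multiset.mem_add.mp hm with hm | hm
      · exact hS m hm
      · rw [Multiset.eq_of_mem_replicate hm]; exact hM
    · rw [Multiset.map_add, Multiset.sum_add, Multiset.map_replicate, Multiset.sum_replicate]
      have : kk 1 = 1 := rfl
      rw [this, smul_eq_mul]
      omega

lemma image_col_shift {D : Finset (ℕ × ℕ)} {H β n : ℕ} :
    (D ∪ col 0 β n).image (fun e => (e.1 + H, e.2)) =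
      D.image (fun e => (e.1 + H, e.2)) ∪ col H β n := by
  rw [Finset.image_union]
  congr 1
  ext e
  rw [Finset.mem_image, mem_col]
  constructor
  · rintro ⟨f, hf, rfl⟩
    rw [mem_col] at hf
    simp only
    omega
  · rintro ⟨h1, h2, h3⟩
    refine ⟨(0, e.2), ?_, ?_⟩
    · rw [mem_col]; exact ⟨rfl, h2, h3⟩
    · ext
      · simp only; omega
      · rfl

lemma image_col_reflect {D : Finset (ℕ × ℕ)} {H B β : ℕ} :
    (D ∪ col 0 β (B + 1)).image (fun e => (H - e.1, B - e.2)) =
      D.image (fun e => (H - e.1, B - e.2)) ∪ col H 0 (B + 1 - β) := by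
  rw [Finset.image_union]
  congr 1
  ext e
  rw [Finset.mem_image, mem_col]
  constructor
  · rintro ⟨f, hf, rfl⟩
    rw [mem_col] at hf
    simp only
    omega
  · rintro ⟨h1, h2, h3⟩
    refine ⟨(0, B - e.2), ?_, ?_⟩
    · rw [mem_col]
      refine ⟨rfl, ?_, ?_⟩
      · show β ≤ B - e.2
        omega
      · show B - e.2 < B + 1
        omega
    · ext
      · simp only; omega
      · simp only; omega

/-- the critical case for hexagons -/
lemma critical_hex {a b c d H M : ℕ} (hM : 0 < M) (hbH : b ≤ H) (hHc : H ≤ c) (hMH : M ≤ H)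
    (hR : a + H + M ≤ d) (hac : a + c ≤ d) (hn : 11 * kk M ≤ d - c + 1) (S : Multiset ℕ)
    (hS : ∀ m ∈ S, m ≤ M) (h1 : (hex a b c d).card ≤ (S.map kk).sum)
    (h2 : (S.map kk).sum < (hex a b c d).card + kk M) :
    Good ℂ (hex a b c d) S (hex a b c d).card := by
  have hκ : 0 < kk M := Nat.choose_pos (by omega)
  have hκM := two_mul_kk M
  have h2M : 2 * M * (M - 1) + 2 * M = 2 * (M * M) := by
    obtain ⟨t, rfl⟩ := Nat.exists_eq_add_of_le' hM
    simp only [Nat.add_sub_cancel]; ring
  have hMM : M ≤ M * M := Nat.le_mul_of_pos_left M hM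
  -- the right part
  set AR := d - a - H with hAR
  set B := d - c with hB
  set DR := d - H with hDR
  set U := (pent' AR B DR).image (fun e => (e.1 + H, e.2)) with hU
  have hUmem : ∀ e, e ∈ U ↔ H < e.1 ∧ e.1 + a ≤ d ∧ e.2 + c ≤ d ∧ e.1 + e.2 ≤ d := by
    intro e
    rw [hU, Finset.mem_image]
    constructor
    · rintro ⟨f, hf, rfl⟩
      rw [mem_pent' (by omega) (by omega), mem_pent] at hf
      simp only
      omega
    · rintro ⟨h3, h4, h5, h6⟩
      refine ⟨(e.1 - H, e.2), ?_, ?_⟩
      · rw [mem_pent' (by omega) (by omega), mem_pent]; simp only; omega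
      · ext
        · simp only; omega
        · rfl
  have hUcard : U.card = (pent' AR B DR).card := card_shift _ _
  -- the left part
  set DL := H + B - b with hDL
  set W := (pent' H B DL).image (fun e => (H - e.1, B - e.2)) with hW
  have hWmem : ∀ e, e ∈ W ↔ e.1 < H ∧ b ≤ e.1 + e.2 ∧ e.2 + c ≤ d := by
    intro e
    rw [hW, Finset.mem_image]
    constructor
    · rintro ⟨f, hf, rfl⟩
      rw [mem_pent' (by omega) (by omega), mem_pent] at hf
      simp only
      omega
    · rintro ⟨h3, h4, h5⟩
      refine ⟨(H - e.1, B - e.2), ?_, ?_⟩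
      · rw [mem_pent' (by omega) (by omega), mem_pent]; simp only; omega
      · ext
        · simp only; omega
        · simp only; omega
  have hWcard : W.card = (pent' H B DL).card := by
    rw [hW]
    apply Finset.card_image_of_injOn
    intro x hx z hz hxz
    have h3 := mem_pent.mp ((mem_pent' (by omega) (by omega)).mp hx).2
    have h4 := mem_pent.mp ((mem_pent' (by omega) (by omega)).mp hz).2
    simp only [Prod.mk.injEq] at hxz
    ext
    · omega
    · omega
  have hhex : U ∪ col H 0 (B + 1) ∪ W = hex a b c d := by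
    ext e
    rw [Finset.mem_union, Finset.mem_union, hUmem, hWmem, mem_col, mem_hex]
    omega
  have hhexcard : (hex a b c d).card = U.card + (B + 1) + W.card := by
    rw [← hhex, Finset.card_union_of_disjoint, Finset.card_union_of_disjoint, card_col,
      Nat.sub_zero]
    · rw [Finset.disjoint_left]
      intro e he he'
      have := (hUmem e).mp he
      have := mem_col.mp he'
      omega
    · rw [Finset.disjoint_left]
      intro e he he'
      have h4 := (hWmem e).mp he'
      rcases Finset.mem_union.mp he with he | he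
      · have := (hUmem e).mp he
        omega
      · have := mem_col.mp he
        omega
  have hcR := card_pent_succ (A := AR) (B := B) (D := DR) (by omega) (by omega) (by omega)
  have hcL := card_pent_succ (A := H) (B := B) (D := DL) (by omega) (by omega) (by omega)
  rw [card_pent'] at hUcard hWcard
  -- selection
  obtain ⟨P, Q, hPQ, h3, h4⟩ := select (kk M) (U.card + 5 * kk M) S 0
    (fun m hm => kk_mono (hS m hm)) (by omega) (by omega)
  rw [Nat.zero_add] at h3 h4
  have hsum : (S.map kk).sum = (P.map kk).sum + (Q.map kk).sum := by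
    rw [hPQ, Multiset.map_add, Multiset.sum_add]
  have hP : ∀ m ∈ P, m ≤ M := fun m hm => hS m (by
    rw [hPQ]; exact Multiset.mem_add.mpr (Or.inl hm))
  have hQ : ∀ m ∈ Q, m ≤ M := fun m hm => hS m (by
    rw [hPQ]; exact Multiset.mem_add.mpr (Or.inr hm))
  have gP := (pent_half (A := AR) (B := B) (D := DR) (M := M) (ms := P) (by omega) (by omega)
    (by omega) (by omega) hM (by omega) hP (by omega) (by omega)).shift H
  rw [image_col_shift, card_pent', ← hUcard] at gP
  have gQ := good_reflect (N := H) (B := B) (by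
    intro e he
    rcases Finset.mem_union.mp he with he | he
    · have := mem_pent.mp ((mem_pent' (by omega) (by omega)).mp he).2
      omega
    · have := mem_col.mp he
      omega) (pent_half (A := H) (B := B) (D := DL) (M := M) (ms := Q) (by omega) (by omega)
    (by omega) (by omega) hM (by omega) hQ (by omega) (by omega))
  rw [image_col_reflect, card_pent', ← hWcard, show B + 1 - (W.card + (B + 1) - (Q.map kk).sum) =
    (Q.map kk).sum - W.card by omega] at gQ
  have := glue_abs (U := U) (W := W) (H := H) (n := B + 1) (fun e he => ((hUmem e).mp he).1)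
    (fun e he => ((hWmem e).mp he).1) gP gQ (by omega) (by omega) (by omega) (by omega) (by omega)
  rwa [hhex, ← hPQ] at this

/-- hexagons -/
theorem good_hex {a b c d H M : ℕ} (hM : 0 < M) (hbH : b ≤ H) (hHc : H ≤ c) (hMH : M ≤ H)
    (hR : a + H + M ≤ d) (hac : a + c ≤ d) (hn : 11 * kk M ≤ d - c + 1) (S : Multiset ℕ)
    (hS : ∀ m ∈ S, m ≤ M) : Good ℂ (hex a b c d) S (min (S.map kk).sum (hex a b c d).card) :=
  good_of_critical hM (fun S hS h1 h2 => critical_hex hM hbH hHc hMH hR hac hn S hS h1 h2) S hS

end Pool.Agent.helper7.Hex
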