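import Mathlib
import Pool.Agent.helper7.Hex.Main

set_option autoImplicit false

/-!
# Corners of hexagons and points
-/

namespace Pool.Agent.helper7.Hex

open Pool.Agent.helper89.Segre

lemma hex_subset (a b c d : ℕ) : hex a b c d ⊆ tri d := Finset.filter_subset _ _

lemma hex_zero (d : ℕ) : hex 0 0 0 d = tri d := by
  ext e; rw [mem_hex, mem_tri]; omega

lemma hex_flip_image (a b c d : ℕ) :
    (hex a b c d).image (fun e => (e.1, d - e.1 - e.2)) = hex a c b d := by
  ext e
  rw [Finset.mem_image, mem_hex]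
  constructor
  · rintro ⟨f, hf, rfl⟩
    rw [mem_hex] at hf
    simp only
    omega
  · intro h
    refine ⟨(e.1, d - e.1 - e.2), ?_, ?_⟩
    · rw [mem_hex]; simp only; omega
    · ext
      · rfl
      · simp only; omega

lemma hex_swap_image (a b c d : ℕ) :
    (hex a b c d).image (fun e => (e.2, e.1)) = hex c b a d := by
  ext e
  rw [Finset.mem_image, mem_hex]
  constructor
  · rintro ⟨f, hf, rfl⟩
    rw [mem_hex] at hf
    simp only
    omega
  · intro h
    refine ⟨(e.2, e.1), ?_, rfl⟩
    rw [mem_hex]; simp only; omega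

lemma good_hex_flip {a b c d r : ℕ} {S : Multiset ℕ} (h : Good ℂ (hex a b c d) S r) :
    Good ℂ (hex a c b d) S r := by
  have := Good.flip (hex_subset a b c d) h
  rwa [hex_flip_image] at this

lemma good_hex_swap {a b c d r : ℕ} {S : Multiset ℕ} (h : Good ℂ (hex a b c d) S r) :
    Good ℂ (hex c b a d) S r := by
  have := good_swap h
  rwa [hex_swap_image] at this

lemma card_hex_flip (a b c d : ℕ) : (hex a c b d).card = (hex a b c d).card := by
  rw [← hex_flip_image, Finset.card_image_of_injOn]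
  intro x hx z hz hxz
  have h1 := mem_hex.mp hx
  have h2 := mem_hex.mp hz
  simp only [Prod.mk.injEq] at hxz
  ext
  · exact hxz.1
  · omega

lemma card_hex_swap (a b c d : ℕ) : (hex c b a d).card = (hex a b c d).card := by
  rw [← hex_swap_image, Finset.card_image_of_injective]
  intro x z hxz
  simp only [Prod.mk.injEq] at hxz
  ext
  · exact hxz.2
  · exact hxz.1

/-- left ends of the rows of a hexagon -/
def hl (b : ℕ) (j : ℕ) : ℕ := b - j

/-- lengths of the rows of a hexagon -/
def hy (a b c d : ℕ) (j : ℕ) : ℕ := if j + c ≤ d then min (d + 1 - a) (d + 1 - j) - (b - j) else 0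

lemma hex_eq_boxl (a b c d : ℕ) : hex a b c d = boxl (d + 1) (hl b) (hy a b c d) := by
  ext e
  rw [mem_hex, mem_boxl]
  unfold hl hy
  split_ifs <;> omega

lemma corner_slice {a b c d : ℕ} (h1 : a + b ≤ d + 1) (h2 : a + c ≤ d + 1) :
    Slice (d + 1) a (hy 0 b c d) (fun j => a - j) (fun k => a - k) := by
  constructor
  · intro j _
    unfold hy
    split_ifs <;> omega
  · intro k h3 h4
    constructor
    · omega
    · omega
  · intro j _ h3
    constructor
    · omega
    · omega
  · intro j _ _ k h3 h4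
    omega

lemma hy_sub {a b c d : ℕ} (h1 : a + b ≤ d + 1) (h2 : a + c ≤ d + 1) (j : ℕ) (hj : j < d + 1) :
    hy 0 b c d j - (a - j) = hy a b c d j := by
  unfold hy
  split_ifs <;> omega

lemma box_congr {n : ℕ} {y y' : ℕ → ℕ} (h : ∀ j < n, y j = y' j) : box n y = box n y' := by
  ext e
  rw [mem_box, mem_box]
  constructor
  · rintro ⟨h1, h2⟩
    exact ⟨h1, by rw [← h _ h1]; exact h2⟩
  · rintro ⟨h1, h2⟩
    exact ⟨h1, by rw [h _ h1]; exact h2⟩

lemma boxl_congr {n : ℕ} {l y y' : ℕ → ℕ} (h : ∀ j < n, y j = y' j) :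
    boxl n l y = boxl n l y' := by
  ext e
  rw [mem_boxl, mem_boxl]
  constructor
  · rintro ⟨h1, h2, h3⟩
    exact ⟨h1, h2, by rw [← h _ h1]; exact h3⟩
  · rintro ⟨h1, h2, h3⟩
    exact ⟨h1, h2, by rw [h _ h1]; exact h3⟩

/-- A corner is removed by a point. -/
lemma good_corner {a b c d r : ℕ} {S : Multiset ℕ} (h1 : a + b ≤ d + 1) (h2 : a + c ≤ d + 1)
    (h : Good ℂ (hex a b c d) S r) : Good ℂ (hex 0 b c d) (a ::ₘ S) (kk a + r) := by
  rw [hex_eq_boxl] at h ⊢
  apply slice_goodl (corner_slice h1 h2)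
  rwa [boxl_congr (fun j hj => hy_sub h1 h2 j hj)]

lemma card_corner {a b c d : ℕ} (h1 : a + b ≤ d + 1) (h2 : a + c ≤ d + 1) :
    (hex 0 b c d).card = kk a + (hex a b c d).card := by
  have h3 := (corner_slice h1 h2).sum
  rw [hex_eq_boxl, hex_eq_boxl, card_boxl, card_boxl]
  unfold kk
  rw [← h3, ← Finset.sum_add_distrib]
  apply Finset.sum_congr rfl
  intro j hj
  have h4 := (corner_slice h1 h2).le j (Finset.mem_range.mp hj)
  have h5 := hy_sub h1 h2 j (Finset.mem_range.mp hj)
  omega

/-- Three corners are removed by three points. -/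
lemma good_corners {a b c d r : ℕ} {S : Multiset ℕ} (h1 : a + b ≤ d + 1) (h2 : a + c ≤ d + 1)
    (h3 : b + c ≤ d + 1) (h : Good ℂ (hex a b c d) S r) :
    Good ℂ (tri d) (c ::ₘ b ::ₘ a ::ₘ S) (kk c + (kk b + (kk a + r))) := by
  have g1 := good_corner h1 h2 h
  -- `hex 0 b c d` to `hex b 0 c d`
  have g2 := good_hex_swap (good_hex_flip (good_hex_swap g1))
  have g3 := good_corner (a := b) (b := 0) (c := c) (d := d) (by omega) (by omega) g2
  -- `hex 0 0 c d` to `hex c 0 0 d`
  have g4 := good_hex_swap g3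
  have g5 := good_corner (a := c) (b := 0) (c := 0) (d := d) (by omega) (by omega) g4
  rwa [hex_zero] at g5

lemma card_corners {a b c d : ℕ} (h1 : a + b ≤ d + 1) (h2 : a + c ≤ d + 1)
    (h3 : b + c ≤ d + 1) :
    (tri d).card = kk c + (kk b + (kk a + (hex a b c d).card)) := by
  rw [← card_corner h1 h2, ← card_hex_swap 0 b c d, ← card_hex_flip c b 0 d,
    ← card_hex_swap c 0 b d, ← card_corner (a := b) (b := 0) (c := c) (d := d) (by omega) (by omega),
    ← card_hex_swap 0 0 c d, ← card_corner (a := c) (b := 0) (c := 0) (d := d) (by omega) (by omega),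
    hex_zero]

end Pool.Agent.helper7.Hex
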