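import Mathlib
import Pool.Agent.helper7.Hex.Corner

set_option autoImplicit false

/-!
# A general point is moved to a corner
-/

namespace Pool.Agent.helper7.Hex

open Pool.Agent.helper89.Segre Polynomial

/-- composition of two translations -/
lemma gg_conv (x s : ℂ) (a i : ℕ) :
    ∑ k ∈ Finset.range (a + 1), gg x a k * gg s k i = gg (s + x) a i := by
  have h1 : (X + C (s + x) : ℂ[X]) ^ a = (((X : ℂ[X]) + C x) ^ a).comp (X + C s) := by
    rw [pow_comp, add_comp, X_comp, C_comp, C_add]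
    congr 1
    ring
  have h2 : ((X + C (s + x) : ℂ[X]) ^ a).coeff i =
      ((((X : ℂ[X]) + C x) ^ a).comp (X + C s)).coeff i := by rw [h1]
  rw [coeff_X_add_C_pow] at h2
  unfold gg
  rw [h2]
  have h3 : ((X : ℂ[X]) + C x) ^ a = ∑ k ∈ Finset.range (a + 1), C (x ^ (a - k) *
      ((a.choose k : ℕ) : ℂ)) * X ^ k := by
    rw [add_pow]
    apply Finset.sum_congr rfl
    intro k _
    rw [C_mul, C_pow, ← C_eq_natCast]
    ring
  rw [h3, Polynomial.sum_comp, finsetSum_coeff]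
  apply Finset.sum_congr rfl
  intro k _
  rw [mul_comp, C_comp, pow_comp, X_comp, coeff_C_mul, coeff_X_add_C_pow]

lemma gg_zero (a i : ℕ) : gg 0 a i = if a = i then 1 else 0 := by
  unfold gg
  rcases lt_trichotomy a i with h | h | h
  · rw [Nat.choose_eq_zero_of_lt h, if_neg (by omega)]; simp
  · subst h; simp
  · rw [if_neg (by omega), zero_pow (by omega), zero_mul]

/-- conditions at a point, not necessarily in the torus -/
def ev (D : Finset (ℕ × ℕ)) (c : ℕ × ℕ → ℂ) (s t : ℂ) (i j : ℕ) : ℂ :=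
  ∑ e ∈ D, c e * (gg s e.1 i * gg t e.2 j)

lemma mem_Kr_ev {D : Finset (ℕ × ℕ)} {L : Multiset ((ℂ × ℂ) × ℕ)}
    (hL : ∀ x ∈ L, x.1.1 ≠ 0 ∧ x.1.2 ≠ 0) {c : ℕ × ℕ → ℂ} :
    c ∈ Kr D L ↔ (∀ e ∉ D, c e = 0) ∧ ∀ x ∈ L, ∀ i j, i + j < x.2 →
      ev D c x.1.1 x.1.2 i j = 0 := by
  have key : ∀ s t : ℂ, ∀ i j : ℕ, ∑ e ∈ D, c e * (pw (s, t) e * ((e.1.choose i : ℕ) : ℂ) *
      ((e.2.choose j : ℕ) : ℂ)) = s ^ i * t ^ j * ev D c s t i j := by
    intro s t i j
    unfold ev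
    rw [Finset.mul_sum]
    apply Finset.sum_congr rfl
    intro e _
    unfold pw gg
    simp only
    rcases Nat.lt_or_ge e.1 i with hlt | hge
    · rw [Nat.choose_eq_zero_of_lt hlt]; simp
    rcases Nat.lt_or_ge e.2 j with hlt2 | hge2
    · rw [Nat.choose_eq_zero_of_lt hlt2]; simp
    · have e1 : s ^ e.1 = s ^ i * s ^ (e.1 - i) := by rw [← pow_add]; congr 1; omega
      have e2 : t ^ e.2 = t ^ j * t ^ (e.2 - j) := by rw [← pow_add]; congr 1; omega
      rw [e1, e2]; ring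
  rw [mem_Kr_iff]
  constructor
  · rintro ⟨h1, h2⟩
    refine ⟨h1, fun x hx i j hij => ?_⟩
    have h3 := h2 x hx (i, j) (mem_idx.mpr hij)
    simp only at h3
    rw [show x.1 = (x.1.1, x.1.2) from rfl, key] at h3
    rcases mul_eq_zero.mp h3 with h4 | h4
    · exact absurd h4 (mul_ne_zero (pow_ne_zero _ (hL x hx).1) (pow_ne_zero _ (hL x hx).2))
    · exact h4
  · rintro ⟨h1, h2⟩
    refine ⟨h1, fun x hx ij hij => ?_⟩
    rw [show x.1 = (x.1.1, x.1.2) from rfl, key, h2 x hx ij.1 ij.2 (mem_idx.mp hij), mul_zero]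

/-- coefficients after a translation -/
noncomputable def trn (D' D : Finset (ℕ × ℕ)) (x y : ℂ) : (ℕ × ℕ → ℂ) →ₗ[ℂ] (ℕ × ℕ → ℂ) where
  toFun c e' := if e' ∈ D then ∑ e ∈ D', c e * (gg x e.1 e'.1 * gg y e.2 e'.2) else 0
  map_add' := by
    intro a b; ext e
    simp only [Pi.add_apply]
    split_ifs
    · rw [← Finset.sum_add_distrib]
      apply Finset.sum_congr rfl
      intro e _; ring
    · simp
  map_smul' := by
    intro a b; ext e
    simp only [Pi.smul_apply, smul_eq_mul, RingHom.id_apply]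
    split_ifs
    · rw [Finset.mul_sum]
      apply Finset.sum_congr rfl
      intro e _; ring
    · simp

lemma ev_trn {D' D : Finset (ℕ × ℕ)} (hD : ∀ i j i' j', (i, j) ∈ D' → i' ≤ i → j' ≤ j →
    (i', j') ∈ D) (x y s t : ℂ) (c : ℕ × ℕ → ℂ) (i j : ℕ) :
    ev D (trn D' D x y c) s t i j = ev D' c (s + x) (t + y) i j := by
  classical
  unfold ev
  have h1 : ∀ e' ∈ D, trn D' D x y c e' * (gg s e'.1 i * gg t e'.2 j) =
      ∑ e ∈ D', c e * ((gg x e.1 e'.1 * gg s e'.1 i) * (gg y e.2 e'.2 * gg t e'.2 j)) := by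
    intro e' he'
    change (if e' ∈ D then _ else _) * _ = _
    rw [if_pos he', Finset.sum_mul]
    apply Finset.sum_congr rfl
    intro e _
    ring
  rw [Finset.sum_congr rfl h1, Finset.sum_comm]
  apply Finset.sum_congr rfl
  intro e he
  rw [← Finset.mul_sum]
  congr 1
  rw [← gg_conv x s e.1 i, ← gg_conv y t e.2 j, Finset.sum_mul_sum, ← Finset.sum_product']
  symm
  apply Finset.sum_subset
  · intro f hf
    rw [Finset.mem_product, Finset.mem_range, Finset.mem_range] at hf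
    exact hD e.1 e.2 f.1 f.2 he (by omega) (by omega)
  · intro f _ hf
    rw [Finset.mem_product, Finset.mem_range, Finset.mem_range, not_and_or] at hf
    rcases hf with hf | hf
    · unfold gg
      rw [Nat.choose_eq_zero_of_lt (by omega : e.1 < f.1)]; simp
    · unfold gg
      rw [Nat.choose_eq_zero_of_lt (by omega : e.2 < f.2)]; simp

/-- at the origin -/
lemma ev_zero (D : Finset (ℕ × ℕ)) (c : ℕ × ℕ → ℂ) (i j : ℕ) :
    ev D c 0 0 i j = if (i, j) ∈ D then c (i, j) else 0 := by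
  classical
  unfold ev
  have h1 : ∀ e ∈ D, c e * (gg 0 e.1 i * gg 0 e.2 j) = if e = (i, j) then c (i, j) else 0 := by
    intro e _
    rw [gg_zero, gg_zero]
    by_cases h1 : e.1 = i
    · by_cases h2 : e.2 = j
      · have : e = (i, j) := by ext <;> simp [h1, h2]
        rw [if_pos h1, if_pos h2, if_pos this, this]; ring
      · have h3 : e ≠ (i, j) := fun h => h2 (by rw [h])
        rw [if_neg h2, if_neg h3]; ring
    · have h3 : e ≠ (i, j) := fun h => h1 (by rw [h])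
      rw [if_neg h1, if_neg h3]; ring
  rw [Finset.sum_congr rfl h1, Finset.sum_ite_eq']

/-- General points. -/
lemma exists_general {D : Finset (ℕ × ℕ)} {m r : ℕ} {ms : Multiset ℕ}
    (h : Good ℂ D (m ::ₘ ms) r) :
    ∃ (p : ℂ × ℂ) (L : Multiset ((ℂ × ℂ) × ℕ)), L.map Prod.snd = ms ∧ p.1 ≠ 0 ∧ p.2 ≠ 0 ∧
      (∀ x ∈ L, x.1.1 ≠ 0 ∧ x.1.2 ≠ 0) ∧ (∀ x ∈ L, x.1.1 - p.1 ≠ 0 ∧ x.1.2 - p.2 ≠ 0) ∧
      HasRank D ((p, m) ::ₘ L) r := by
  classical
  obtain ⟨L0, h1, h2, h3⟩ := h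
  obtain ⟨x0, hx0, hx0m, hL1⟩ := (Multiset.map_eq_cons _ _ _ _).mpr h1
  set L1 := L0.erase x0 with hL1def
  have hL0 : L0 = x0 ::ₘ L1 := (Multiset.cons_erase hx0).symm
  let T : Multiset ((ℂ × ℂ) × (ℂ × ℂ) × ℕ) :=
    (x0.1, (1, 1), m) ::ₘ L1.map (fun x => (x.1, (2, 2), x.2))
  have e0 : Ltl T 0 = L0 := by
    rw [hL0]
    simp only [T]
    unfold Ltl ptl
    rw [Multiset.map_cons, Multiset.map_map]
    congr 1
    · ext <;> simp [hx0m]
    · conv_rhs => rw [← Multiset.map_id L1]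
      apply Multiset.map_congr rfl
      intro x _
      ext <;> simp
  rw [← e0] at h3
  obtain ⟨P, hP, hP'⟩ := exists_det_poly T 0 h3
  let Z : ℂ[X] := (T.map fun τ => cp τ.1.1 τ.2.1.1 * cp τ.1.2 τ.2.1.2).prod
  have hZ : Z ≠ 0 := by
    apply Multiset.prod_ne_zero
    intro h0
    obtain ⟨τ, hτ, hτ0⟩ := Multiset.mem_map.mp h0
    have hmem : (ptl 0 τ, τ.2.2) ∈ L0 := by
      rw [← e0]; exact Multiset.mem_map_of_mem _ hτ
    have h5 := h2 _ hmem
    have h6 := congrArg (Polynomial.eval 0) hτ0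
    rw [eval_mul, eval_cp, eval_cp, eval_zero] at h6
    simp only [ptl] at h5
    exact mul_ne_zero h5.1 h5.2 h6
  let W : ℂ[X] := (L1.map fun x => (cp x.1.1 2 - cp x0.1.1 1) * (cp x.1.2 2 - cp x0.1.2 1)).prod
  have hW : W ≠ 0 := by
    apply Multiset.prod_ne_zero
    intro h0
    obtain ⟨x, hx, hx0⟩ := Multiset.mem_map.mp h0
    have h6 := congrArg (Polynomial.eval 1) hx0
    rw [eval_mul, eval_sub, eval_sub, eval_cp, eval_cp, eval_cp, eval_cp, eval_zero] at h6
    norm_num at h6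
  have hne : P ≠ 0 := by rintro rfl; simp at hP
  obtain ⟨t, ht⟩ : ∃ t : ℂ, (P * Z * W).eval t ≠ 0 := by
    by_contra hcon
    apply mul_ne_zero (mul_ne_zero hne hZ) hW
    apply Polynomial.funext
    intro t
    by_contra h
    exact hcon ⟨t, by simpa using h⟩
  rw [eval_mul, eval_mul] at ht
  have htW := right_ne_zero_of_mul ht
  have htP := left_ne_zero_of_mul (left_ne_zero_of_mul ht)
  have htZ := right_ne_zero_of_mul (left_ne_zero_of_mul ht)
  have htor : ∀ τ ∈ T, (ptl t τ).1 ≠ 0 ∧ (ptl t τ).2 ≠ 0 := by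
    intro τ hτ
    obtain ⟨T', hT'⟩ := Multiset.exists_cons_of_mem hτ
    simp only [Z] at htZ
    rw [hT', Multiset.map_cons, Multiset.prod_cons, eval_mul, eval_mul, eval_cp, eval_cp] at htZ
    have h5 := left_ne_zero_of_mul htZ
    exact ⟨left_ne_zero_of_mul h5, right_ne_zero_of_mul h5⟩
  refine ⟨ptl t (x0.1, (1, 1), m), (L1.map (fun x => (x.1, ((2 : ℂ), (2 : ℂ)), x.2))).map
    (fun τ => (ptl t τ, τ.2.2)), ?_, ?_, ?_, ?_, ?_, ?_⟩
  · rw [Multiset.map_map, Multiset.map_map, ← hL1]; rfl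
  · exact (htor _ (Multiset.mem_cons_self _ _)).1
  · exact (htor _ (Multiset.mem_cons_self _ _)).2
  · intro x hx
    obtain ⟨τ, hτ, rfl⟩ := Multiset.mem_map.mp hx
    exact htor τ (Multiset.mem_cons_of_mem hτ)
  · intro x hx
    obtain ⟨τ, hτ, rfl⟩ := Multiset.mem_map.mp hx
    obtain ⟨z, hz, rfl⟩ := Multiset.mem_map.mp hτ
    obtain ⟨T', hT'⟩ := Multiset.exists_cons_of_mem hz
    simp only [W] at htW
    rw [hT', Multiset.map_cons, Multiset.prod_cons, eval_mul, eval_mul, eval_sub, eval_sub,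
      eval_cp, eval_cp, eval_cp, eval_cp] at htW
    have h5 := left_ne_zero_of_mul htW
    exact ⟨left_ne_zero_of_mul h5, right_ne_zero_of_mul h5⟩
  · have := hP' t htP
    simp only [T] at this
    unfold Ltl at this
    rw [Multiset.map_cons] at this
    exact this

/-- A general point is moved to the origin. -/
lemma good_to_corner {D : Finset (ℕ × ℕ)} (hD : ∀ i j i' j', (i, j) ∈ D → i' ≤ i → j' ≤ j →
    (i', j') ∈ D) {m r : ℕ} (hm : ∀ i j, i + j < m → (i, j) ∈ D) {ms : Multiset ℕ}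
    (h : Good ℂ D (m ::ₘ ms) (kk m + r)) :
    Good ℂ (D.filter fun e => m ≤ e.1 + e.2) ms r := by
  classical
  obtain ⟨p, L, h1, hp1, hp2, h2, h3, h4⟩ := exists_general h
  set D' := D.filter fun e => m ≤ e.1 + e.2 with hD'
  have hD'D : D' ⊆ D := Finset.filter_subset _ _
  have hcard : D.card = kk m + D'.card := by
    have h5 : D.filter (fun e => ¬ m ≤ e.1 + e.2) = idx m := by
      ext e
      rw [Finset.mem_filter, mem_idx]
      constructor
      · rintro ⟨_, h6⟩; omega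
      · intro h6
        exact ⟨hm e.1 e.2 h6, by omega⟩
    have h6 := Finset.card_filter_add_card_filter_not (s := D) (fun e => m ≤ e.1 + e.2)
    rw [h5, card_idx, ← hD'] at h6
    unfold kk
    omega
  set L' : Multiset ((ℂ × ℂ) × ℕ) := L.map fun x => ((x.1.1 - p.1, x.1.2 - p.2), x.2) with hL'
  have hL'tor : ∀ x ∈ L', x.1.1 ≠ 0 ∧ x.1.2 ≠ 0 := by
    intro x hx
    obtain ⟨z, hz, rfl⟩ := Multiset.mem_map.mp hx
    exact h3 z hz
  have hLtor : ∀ x ∈ (p, m) ::ₘ L, x.1.1 ≠ 0 ∧ x.1.2 ≠ 0 := by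
    intro x hx
    rcases Multiset.mem_cons.mp hx with rfl | hx
    · exact ⟨hp1, hp2⟩
    · exact h2 x hx
  refine ⟨L', ?_, hL'tor, ?_⟩
  · rw [hL', Multiset.map_map, ← h1]; rfl
  have hlow : ∀ i j i' j', (i, j) ∈ D' → i' ≤ i → j' ≤ j → (i', j') ∈ D :=
    fun i j i' j' h5 h6 h7 => hD i j i' j' (hD'D h5) h6 h7
  rw [hasRank_iff] at h4 ⊢
  have h5 : ∀ c ∈ Kr D' L', trn D' D (-p.1) (-p.2) c ∈ Kr D ((p, m) ::ₘ L) := by
    intro c hc
    rw [mem_Kr_ev hL'tor] at hc
    rw [mem_Kr_ev hLtor]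
    refine ⟨fun e he => if_neg he, fun x hx i j hij => ?_⟩
    rw [ev_trn hlow]
    rcases Multiset.mem_cons.mp hx with rfl | hx
    · simp only at hij ⊢
      rw [add_neg_cancel, add_neg_cancel, ev_zero, if_neg]
      intro h6
      have := (Finset.mem_filter.mp h6).2
      simp only at this
      omega
    · have := hc.2 _ (Multiset.mem_map_of_mem _ hx) i j hij
      simp only [sub_eq_add_neg] at this
      exact this
  have h6 : ∀ c ∈ Kr D' L', trn D' D (-p.1) (-p.2) c = 0 → c = 0 := by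
    intro c hc h0
    ext e
    by_cases he : e ∈ D'
    · have h7 := ev_trn hlow (-p.1) (-p.2) p.1 p.2 c e.1 e.2
      rw [add_neg_cancel, add_neg_cancel, ev_zero, if_pos he, h0] at h7
      rw [show c e = c (e.1, e.2) from rfl, ← h7]
      unfold ev
      simp
    · exact hc.1 e he
  have h7 : Module.finrank ℂ (Kr D' L') ≤ Module.finrank ℂ (Kr D ((p, m) ::ₘ L)) := by
    let T' : Kr D' L' →ₗ[ℂ] Kr D ((p, m) ::ₘ L) := (trn D' D (-p.1) (-p.2)).restrict h5
    apply LinearMap.finrank_le_finrank_of_injective (f := T')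
    rw [← LinearMap.ker_eq_bot, LinearMap.ker_eq_bot']
    rintro ⟨c, hc⟩ h8
    have h9 : trn D' D (-p.1) (-p.2) c = 0 :=
      congrArg (fun z : Kr D ((p, m) ::ₘ L) => (z : ℕ × ℕ → ℂ)) h8
    exact Subtype.ext (h6 c hc h9)
  omega

/-- Two corners from two points. -/
lemma good_hex_of_points {a b c d r : ℕ} {S : Multiset ℕ} (h1 : a + b ≤ d + 1)
    (h2 : a + c ≤ d + 1) (h3 : b + c ≤ d + 1)
    (h : Good ℂ (hex a 0 0 d) (b ::ₘ c ::ₘ S) (kk b + (kk c + r))) :
    Good ℂ (hex a b c d) S r := by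
  have g1 := good_to_corner (D := hex a 0 0 d) (by
    intro i j i' j' h4 h5 h6
    rw [mem_hex] at h4 ⊢
    simp only at h4 ⊢
    omega) (by
    intro i j h4
    rw [mem_hex]
    simp only
    omega) h
  have e1 : (hex a 0 0 d).filter (fun e => b ≤ e.1 + e.2) = hex a b 0 d := by
    ext e
    rw [Finset.mem_filter, mem_hex, mem_hex]
    omega
  rw [e1] at g1
  have g2 := good_hex_flip g1
  have g3 := good_to_corner (D := hex a 0 b d) (by
    intro i j i' j' h4 h5 h6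
    rw [mem_hex] at h4 ⊢
    simp only at h4 ⊢
    omega) (by
    intro i j h4
    rw [mem_hex]
    simp only
    omega) g2
  have e2 : (hex a 0 b d).filter (fun e => c ≤ e.1 + e.2) = hex a c b d := by
    ext e
    rw [Finset.mem_filter, mem_hex, mem_hex]
    omega
  rw [e2] at g3
  exact good_hex_flip g3

end Pool.Agent.helper7.Hex
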