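import Mathlib
import Pool.Agent.helper7.Hex.Trans

set_option autoImplicit false

/-!
# Triangles with one corner removed
-/

namespace Pool.Agent.helper7.Hex

open Pool.Agent.helper89.Segre

/-- A strip with a partial last column. -/
lemma strip_half {M d : ℕ} {ms : Multiset ℕ} (hM : 0 < M) (hMd : M ≤ d) (hms : ∀ m ∈ ms, m ≤ M)
    (h1 : (strip M d).card + 5 * kk M ≤ (ms.map kk).sum)
    (h2 : (ms.map kk).sum + 2 * M * (M - 1) < (strip M d).card + (d - M + 1)) :
    Good ℂ (strip M d ∪ col M 0 ((ms.map kk).sum - (strip M d).card)) ms (ms.map kk).sum := by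
  set n := d - M + 1 with hn
  set W := strip M d with hW
  set NB := (ms.map kk).sum with hNB
  have hWp : strip (M + 1) d = W ∪ col M 0 n := by
    ext e
    rw [Finset.mem_union, hW, mem_strip, mem_strip, mem_col]
    omega
  have hdisjW : ∀ a b, Disjoint W (col M a b) := by
    intro a b
    rw [Finset.disjoint_left]
    intro e he he'
    have := mem_strip.mp he
    have := mem_col.mp he'
    omega
  have hWpcard : (strip (M + 1) d).card = W.card + n := by
    rw [hWp, Finset.card_union_of_disjoint (hdisjW _ _), card_col, Nat.sub_zero]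
  have hκ : 0 < kk M := Nat.choose_pos (by omega)
  have gB1 := good_indep (H := M + 1) (d := d) 0 ms hms (by omega) (by simp) (by
    rw [hWpcard, Multiset.map_zero, Multiset.sum_zero]
    omega)
  have gB2 := good_reserve (H := M) (d := d) hM 0 ms hms (by omega) (by simp) (by
    rw [Multiset.map_zero, Multiset.sum_zero, ← hW]
    omega) (by omega)
  rw [zero_add, Multiset.map_zero, Multiset.sum_zero, zero_add, ← hNB] at gB1
  rw [zero_add, ← hW] at gB2
  rw [hWp] at gB1
  have gB := Good.interp (R := W) (H := M) (n := n) (N := NB)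
    (by
      intro i j j' h6 h7
      rw [hW, mem_strip] at h6 ⊢
      simp only at h6 ⊢
      omega)
    (by
      intro e he
      have := mem_strip.mp he
      omega) gB1 gB2 (by omega) (by omega)
  have gB' := Good.flip (d := d) (by
    intro e he
    rw [mem_tri]
    rcases Finset.mem_union.mp he with he | he
    · exact (mem_strip.mp he).2
    · have := mem_col.mp he
      omega) gB
  have hBset : ((W ∪ col M (W.card + n - NB) n).image
      fun e => (e.1, d - e.1 - e.2)) = W ∪ col M 0 (NB - W.card) := by
    ext e
    rw [Finset.mem_image, Finset.mem_union, hW, mem_strip, mem_col]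
    constructor
    · rintro ⟨f, hf, rfl⟩
      rw [Finset.mem_union, mem_strip, mem_col] at hf
      simp only
      rw [← hW] at hf ⊢
      omega
    · intro h6
      refine ⟨(e.1, d - e.1 - e.2), ?_, ?_⟩
      · rw [Finset.mem_union, mem_strip, mem_col]
        simp only
        rw [← hW] at h6 ⊢
        omega
      · rw [← hW] at h6
        ext
        · rfl
        · simp only; omega
  rw [hBset] at gB'
  exact gB'

/-- the critical case -/
lemma critical_one {a d M : ℕ} (hM : 0 < M) (had : a + 2 * M ≤ d)
    (hn : 11 * kk M ≤ d - M + 1) (S : Multiset ℕ)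
    (hS : ∀ m ∈ S, m ≤ M) (h1 : (hex a 0 0 d).card ≤ (S.map kk).sum)
    (h2 : (S.map kk).sum < (hex a 0 0 d).card + kk M) :
    Good ℂ (hex a 0 0 d) S (hex a 0 0 d).card := by
  have hκ : 0 < kk M := Nat.choose_pos (by omega)
  have hκM := two_mul_kk M
  have h2M : 2 * M * (M - 1) + 2 * M = 2 * (M * M) := by
    obtain ⟨t, rfl⟩ := Nat.exists_eq_add_of_le' hM
    simp only [Nat.add_sub_cancel]; ring
  have hMM : M ≤ M * M := Nat.le_mul_of_pos_left M hM
  set AR := d - a - M with hAR
  set B := d - M with hB
  set U := (pent' AR B B).image (fun e => (e.1 + M, e.2)) with hU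
  have hUmem : ∀ e, e ∈ U ↔ M < e.1 ∧ e.1 + a ≤ d ∧ e.1 + e.2 ≤ d := by
    intro e
    rw [hU, Finset.mem_image]
    constructor
    · rintro ⟨f, hf, rfl⟩
      rw [mem_pent' (by omega) (by omega), mem_pent] at hf
      simp only
      omega
    · rintro ⟨h3, h4, h5⟩
      refine ⟨(e.1 - M, e.2), ?_, ?_⟩
      · rw [mem_pent' (by omega) (by omega), mem_pent]; simp only; omega
      · ext
        · simp only; omega
        · rfl
  have hUcard : U.card = (pent' AR B B).card := card_shift _ _
  set W := strip M d with hW
  have hWmem : ∀ e, e ∈ W ↔ e.1 < M ∧ e.1 + e.2 ≤ d := fun e => mem_strip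
  have hhex : U ∪ col M 0 (B + 1) ∪ W = hex a 0 0 d := by
    ext e
    rw [Finset.mem_union, Finset.mem_union, hUmem, hWmem, mem_col, mem_hex]
    omega
  have hhexcard : (hex a 0 0 d).card = U.card + (B + 1) + W.card := by
    rw [← hhex, Finset.card_union_of_disjoint, Finset.card_union_of_disjoint, card_col,
      Nat.sub_zero]
    · rw [Finset.disjoint_left]
      intro e he he'
      have := (hUmem e).mp he
      have := mem_col.mp he'
      omega
    · rw [Finset.disjoint_left]
      intro e he he'
      have h4 := (hWmem e).mp he'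
      rcases Finset.mem_union.mp he with he | he
      · have := (hUmem e).mp he
        omega
      · have := mem_col.mp he
        omega
  have hcR := card_pent_succ (A := AR) (B := B) (D := B) (by omega) (by omega) (by omega)
  rw [card_pent'] at hUcard
  obtain ⟨P, Q, hPQ, h3, h4⟩ := select (kk M) (U.card + 5 * kk M) S 0
    (fun m hm => kk_mono (hS m hm)) (by omega) (by omega)
  rw [Nat.zero_add] at h3 h4
  have hsum : (S.map kk).sum = (P.map kk).sum + (Q.map kk).sum := by
    rw [hPQ, Multiset.map_add, Multiset.sum_add]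
  have hP : ∀ m ∈ P, m ≤ M := fun m hm => hS m (by
    rw [hPQ]; exact Multiset.mem_add.mpr (Or.inl hm))
  have hQ : ∀ m ∈ Q, m ≤ M := fun m hm => hS m (by
    rw [hPQ]; exact Multiset.mem_add.mpr (Or.inr hm))
  have gP := (pent_half (A := AR) (B := B) (D := B) (M := M) (ms := P) (by omega) (by omega)
    (by omega) (by omega) hM (by omega) hP (by omega) (by omega)).shift M
  rw [image_col_shift, card_pent', ← hUcard] at gP
  have gQ := strip_half (M := M) (d := d) (ms := Q) hM (by omega) hQ (by rw [← hW]; omega)
    (by rw [← hW]; omega)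
  rw [← hW] at gQ
  have := glue_abs (U := U) (W := W) (H := M) (n := B + 1) (fun e he => ((hUmem e).mp he).1)
    (fun e he => ((hWmem e).mp he).1) gP gQ (by omega) (by omega) (by omega) (by omega) (by omega)
  rwa [hhex, ← hPQ] at this

/-- triangles with one corner removed -/
theorem good_one' {a d M : ℕ} (hM : 0 < M) (had : a + 2 * M ≤ d)
    (hn : 11 * kk M ≤ d - M + 1) (S : Multiset ℕ)
    (hS : ∀ m ∈ S, m ≤ M) : Good ℂ (hex a 0 0 d) S (min (S.map kk).sum (hex a 0 0 d).card) :=
  good_of_critical hM (fun S hS h1 h2 => critical_one hM had hn S hS h1 h2) S hS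

end Pool.Agent.helper7.Hex
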