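import Mathlib
import Pool.Agent.helper7.Hex.One

set_option autoImplicit false

/-!
# Three big points: the multiset form
-/

namespace Pool.Agent.helper7.Hex

open Pool.Agent.helper89.Segre

lemma hex_reflect_image {a b c d : ℕ} (ha : a + 1 ≤ d) (hb : b + 1 ≤ d) (hc : c + 1 ≤ d)
    (h1 : a + b ≤ d + 1) (h2 : a + c ≤ d + 1) (h3 : b + c ≤ d + 1) :
    (hex (d - b - c) (d - a - c) (d - a - b) (2 * d - a - b - c)).image
      (fun e => (d - a - e.1, d - c - e.2)) = hex a b c d := by
  ext e
  rw [Finset.mem_image, mem_hex]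
  constructor
  · rintro ⟨f, hf, rfl⟩
    rw [mem_hex] at hf
    simp only
    omega
  · intro h
    refine ⟨(d - a - e.1, d - c - e.2), ?_, ?_⟩
    · rw [mem_hex]; simp only; omega
    · ext
      · simp only; omega
      · simp only; omega

lemma card_hex_reflect {a b c d : ℕ} (ha : a + 1 ≤ d) (hb : b + 1 ≤ d) (hc : c + 1 ≤ d)
    (h1 : a + b ≤ d + 1) (h2 : a + c ≤ d + 1) (h3 : b + c ≤ d + 1) :
    (hex (d - b - c) (d - a - c) (d - a - b) (2 * d - a - b - c)).card = (hex a b c d).card := by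
  rw [← hex_reflect_image ha hb hc h1 h2 h3, Finset.card_image_of_injOn]
  intro x hx z hz hxz
  have h4 := mem_hex.mp hx
  have h5 := mem_hex.mp hz
  simp only [Prod.mk.injEq] at hxz
  ext
  · omega
  · omega

lemma good_hex_reflect {a b c d r : ℕ} {S : Multiset ℕ} (ha : a + 1 ≤ d) (hb : b + 1 ≤ d)
    (hc : c + 1 ≤ d)
    (h1 : a + b ≤ d + 1) (h2 : a + c ≤ d + 1) (h3 : b + c ≤ d + 1)
    (h : Good ℂ (hex (d - b - c) (d - a - c) (d - a - b) (2 * d - a - b - c)) S r) :
    Good ℂ (hex a b c d) S r := by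
  have := good_reflect (N := d - a) (B := d - c) (by
    intro e he
    rw [mem_hex] at he
    omega) h
  rwa [hex_reflect_image ha hb hc h1 h2 h3] at this

/-- Two small corners. -/
lemma good_small_corners {a b c d M : ℕ} (hM : 0 < M) (had : a + 2 * M ≤ d)
    (hn : 11 * kk M ≤ d - M + 1) (hb : b ≤ M) (hc : c ≤ M) (S : Multiset ℕ)
    (hS : ∀ m ∈ S, m ≤ M) :
    Good ℂ (hex a b c d) S (min (S.map kk).sum (hex a b c d).card) := by
  have hS' : ∀ m ∈ b ::ₘ c ::ₘ S, m ≤ M := by
    intro m hm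
    rcases Multiset.mem_cons.mp hm with rfl | hm
    · exact hb
    rcases Multiset.mem_cons.mp hm with rfl | hm
    · exact hc
    · exact hS m hm
  have g := good_one' hM had hn _ hS'
  rw [Multiset.map_cons, Multiset.sum_cons, Multiset.map_cons, Multiset.sum_cons] at g
  have c1 := card_corners (a := a) (b := b) (c := c) (d := d) (by omega) (by omega) (by omega)
  have c2 := card_corners (a := a) (b := 0) (c := 0) (d := d) (by omega) (by omega) (by omega)
  have e0 : kk 0 = 0 := rfl
  apply good_hex_of_points (by omega) (by omega) (by omega)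
  convert g using 1
  omega

/-- Three big points with `a1 + a2 ≤ d + 1`, the hexagon. -/
lemma good_hex_all {a1 a2 a3 d M : ℕ} (hM : 0 < M) (hd : 22 * kk M + 2 * M + 1 ≤ d)
    (h12 : a2 ≤ a1) (h23 : a3 ≤ a2) (h1 : a1 + 2 * M ≤ d) (h : a1 + a2 ≤ d + 1) (hM2 : M ≤ a2)
    (S : Multiset ℕ) (hS : ∀ m ∈ S, m ≤ M) :
    Good ℂ (hex a1 a3 a2 d) S (min (S.map kk).sum (hex a1 a3 a2 d).card) := by
  have hκM := two_mul_kk M
  by_cases hB1 : a1 + a3 + M ≤ d
  · by_cases h' : a1 + a2 ≤ d
    · exact good_hex (H := max a3 M) hM (by omega) (by omega) (by omega) (by omega) h' (by omega)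
        S hS
    · have heq : hex a1 a3 a2 d = hex (a1 - 1) a3 (a2 - 1) (d - 1) := by
        ext e
        rw [mem_hex, mem_hex]
        omega
      rw [heq]
      exact good_hex (H := max a3 M) hM (by omega) (by omega) (by omega) (by omega) (by omega)
        (by omega) S hS
  · have ha : a1 + 1 ≤ d := by omega
    have hb : a3 + 1 ≤ d := by omega
    have hc : a2 + 1 ≤ d := by omega
    have e1 : a1 + a3 ≤ d + 1 := by omega
    have e2 : a3 + a2 ≤ d + 1 := by omega
    apply good_hex_reflect ha hb hc e1 h e2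
    rw [← card_hex_reflect ha hb hc e1 h e2]
    exact good_small_corners hM (by omega) (by omega) (by omega) (by omega) S hS

/-- Three big points with `a1 + a2 ≤ d + 1`. -/
theorem good_three {a1 a2 a3 d M : ℕ} (hM : 0 < M) (hd : 22 * kk M + 2 * M + 1 ≤ d)
    (h12 : a2 ≤ a1) (h23 : a3 ≤ a2) (h1 : a1 + 2 * M ≤ d) (h : a1 + a2 ≤ d + 1)
    (S : Multiset ℕ) (hS : ∀ m ∈ S, m ≤ M) :
    Good ℂ (tri d) (a1 ::ₘ a2 ::ₘ a3 ::ₘ S)
      (min ((a1 ::ₘ a2 ::ₘ a3 ::ₘ S).map kk).sum (tri d).card) := by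
  have hκM := two_mul_kk M
  rw [Multiset.map_cons, Multiset.sum_cons, Multiset.map_cons, Multiset.sum_cons,
    Multiset.map_cons, Multiset.sum_cons]
  by_cases hM2 : M ≤ a2
  · have g := good_corners (a := a1) (b := a3) (c := a2) (by omega) (by omega) (by omega)
      (good_hex_all hM hd h12 h23 h1 h hM2 S hS)
    have c1 := card_corners (a := a1) (b := a3) (c := a2) (d := d) (by omega) (by omega) (by omega)
    have e1 : a2 ::ₘ a3 ::ₘ a1 ::ₘ S = a1 ::ₘ a2 ::ₘ a3 ::ₘ S := by
      rw [Multiset.cons_swap a3 a1, Multiset.cons_swap a2 a1]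
    rw [e1] at g
    convert g using 1
    omega
  · have hS' : ∀ m ∈ a2 ::ₘ a3 ::ₘ S, m ≤ M := by
      intro m hm
      rcases Multiset.mem_cons.mp hm with rfl | hm
      · omega
      rcases Multiset.mem_cons.mp hm with rfl | hm
      · omega
      · exact hS m hm
    have g := good_corner (a := a1) (b := 0) (c := 0) (by omega) (by omega)
      (good_one' hM h1 (by omega) _ hS')
    have c1 := card_corner (a := a1) (b := 0) (c := 0) (d := d) (by omega) (by omega)
    rw [hex_zero] at g c1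
    rw [Multiset.map_cons, Multiset.sum_cons, Multiset.map_cons, Multiset.sum_cons] at g
    convert g using 1
    omega

end Pool.Agent.helper7.Hex
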