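import Mathlib
import Pool.Agent.helper7.Hex.Three
import Pool.Agent.helper7.Hex.Line

set_option autoImplicit false

/-!
# Linear systems with at most three big points
-/

namespace Pool.Agent.helper7.Hex

open Pool.Agent.helper89.Segre MvPolynomial

lemma good_drop_zero {D : Finset (ℕ × ℕ)} {ms : Multiset ℕ} {r : ℕ}
    (h : Good ℂ D (0 ::ₘ ms) r) : Good ℂ D ms r := by
  classical
  obtain ⟨L, h1, h2, h3⟩ := h
  obtain ⟨x, hx, hx0, hL⟩ := (Multiset.map_eq_cons _ _ _ _).mpr h1
  refine ⟨L.erase x, hL, fun z hz => h2 z (Multiset.mem_of_mem_erase hz), h3.mono le_rfl ?_⟩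
  unfold Phi
  rw [Submodule.span_le]
  rintro φ ⟨y, hy, ij, hij, rfl⟩
  rw [← Multiset.cons_erase hx] at hy
  rcases Multiset.mem_cons.mp hy with rfl | hy
  · rw [hx0, mem_idx] at hij
    omega
  · exact Submodule.subset_span ⟨y, hy, ij, hij, rfl⟩

lemma sorted_three {T : Multiset ℕ} (h : Multiset.card T = 3) :
    ∃ a b c, T = a ::ₘ b ::ₘ c ::ₘ 0 ∧ b ≤ a ∧ c ≤ b := by
  obtain ⟨x, y, z, rfl⟩ := Multiset.card_eq_three.mp h
  have key : ∀ a b c : ℕ, ({x, y, z} : Multiset ℕ) = {a, b, c} → b ≤ a → c ≤ b →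
      ∃ a b c, ({x, y, z} : Multiset ℕ) = a ::ₘ b ::ₘ c ::ₘ 0 ∧ b ≤ a ∧ c ≤ b :=
    fun a b c h1 h2 h3 => ⟨a, b, c, h1, h2, h3⟩
  have s1 : ({x, y, z} : Multiset ℕ) = {x, z, y} := by
    change x ::ₘ y ::ₘ z ::ₘ 0 = x ::ₘ z ::ₘ y ::ₘ 0
    rw [Multiset.cons_swap y z]
  have s2 : ({x, y, z} : Multiset ℕ) = {y, x, z} := by
    change x ::ₘ y ::ₘ z ::ₘ 0 = y ::ₘ x ::ₘ z ::ₘ 0
    rw [Multiset.cons_swap x y]
  have s3 : ({x, y, z} : Multiset ℕ) = {y, z, x} := by
    rw [s2]
    change y ::ₘ x ::ₘ z ::ₘ 0 = y ::ₘ z ::ₘ x ::ₘ 0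
    rw [Multiset.cons_swap x z]
  have s4 : ({x, y, z} : Multiset ℕ) = {z, x, y} := by
    rw [s1]
    change x ::ₘ z ::ₘ y ::ₘ 0 = z ::ₘ x ::ₘ y ::ₘ 0
    rw [Multiset.cons_swap x z]
  have s5 : ({x, y, z} : Multiset ℕ) = {z, y, x} := by
    rw [s4]
    change z ::ₘ x ::ₘ y ::ₘ 0 = z ::ₘ y ::ₘ x ::ₘ 0
    rw [Multiset.cons_swap x y]
  rcases le_total x y with h1 | h1 <;> rcases le_total y z with h2 | h2 <;>
    rcases le_total x z with h3 | h3
  · exact key z y x s5 h2 h1
  · exact key z y x s5 h2 h1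
  · exact key y z x s3 h2 h3
  · exact key y x z s2 h1 h3
  · exact key z x y s4 h3 h1
  · exact key x z y s1 h3 h2
  · exact key x y z rfl h1 h2
  · exact key x y z rfl h1 h2

/-- The multiset form. -/
theorem good_multi {d M : ℕ} (N : Multiset ℕ) (hM : 0 < M) (hd : 22 * kk M + 2 * M + 1 ≤ d)
    (hcard : Multiset.card (N.filter (fun x => M < x)) ≤ 3) (hN : ∀ x ∈ N, x + 2 * M ≤ d)
    (hpair : ∀ a b S, N = a ::ₘ b ::ₘ S → a + b ≤ d + 1) :
    Good ℂ (tri d) N (min (N.map kk).sum (tri d).card) := by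
  classical
  set N' := N + Multiset.replicate 3 0 with hN'
  have hle : ∀ x ∈ N', x ≤ d := by
    intro x hx
    rcases Multiset.mem_add.mp hx with hx | hx
    · have := hN x hx; omega
    · rw [Multiset.eq_of_mem_replicate hx]; omega
  obtain ⟨T, S, h1, h2, h3, h4⟩ := pick d 3 N' (by rw [hN', Multiset.card_add]; simp) hle
  obtain ⟨a1, a2, a3, rfl, h12, h23⟩ := sorted_three h2
  have hN'eq : N' = a1 ::ₘ a2 ::ₘ a3 ::ₘ S := by
    rw [h1]; simp
  -- the others are small
  have hf : N'.filter (fun x => M < x) = N.filter (fun x => M < x) := by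
    rw [hN', Multiset.filter_add]
    have : (Multiset.replicate 3 0).filter (fun x => M < x) = 0 := by
      rw [Multiset.filter_eq_nil]
      intro a ha
      rw [Multiset.eq_of_mem_replicate ha]; omega
    rw [this, add_zero]
  have hS : ∀ m ∈ S, m ≤ M := by
    intro m hm
    by_contra hcon
    have g1 := h3 a1 (by simp) m hm
    have g2 := h3 a2 (by simp) m hm
    have g3 := h3 a3 (by simp) m hm
    obtain ⟨S', rfl⟩ := Multiset.exists_cons_of_mem hm
    rw [← hf, hN'eq, Multiset.filter_cons_of_pos _ (by omega),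
      Multiset.filter_cons_of_pos _ (by omega), Multiset.filter_cons_of_pos _ (by omega),
      Multiset.filter_cons_of_pos _ (by omega)] at hcard
    simp only [Multiset.card_cons] at hcard
    omega
  have ha1 : a1 + 2 * M ≤ d := by
    have : a1 ∈ N' := by rw [hN'eq]; simp
    rcases Multiset.mem_add.mp this with hx | hx
    · exact hN _ hx
    · rw [Multiset.eq_of_mem_replicate hx]; omega
  have h12' : a1 + a2 ≤ d + 1 := by
    by_cases h0 : a2 = 0
    · omega
    have hf0 : N'.filter (fun x => 0 < x) = N.filter (fun x => 0 < x) := by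
      rw [hN', Multiset.filter_add]
      have : (Multiset.replicate 3 0).filter (fun x => 0 < x) = 0 := by
        rw [Multiset.filter_eq_nil]
        intro a ha
        rw [Multiset.eq_of_mem_replicate ha]; omega
      rw [this, add_zero]
    rw [hN'eq, Multiset.filter_cons_of_pos _ (by omega),
      Multiset.filter_cons_of_pos _ (by omega)] at hf0
    apply hpair a1 a2 ((a3 ::ₘ S).filter (fun x => 0 < x) + N.filter (fun x => ¬ 0 < x))
    rw [← Multiset.cons_add, ← Multiset.cons_add, hf0, Multiset.filter_add_not]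
  have g := good_three hM hd h12 h23 ha1 h12' S hS
  rw [← hN'eq] at g
  have hsum : (N'.map kk).sum = (N.map kk).sum := by
    rw [hN', Multiset.map_add, Multiset.sum_add, Multiset.map_replicate, Multiset.sum_replicate]
    have : kk 0 = 0 := rfl
    rw [this, smul_zero, add_zero]
  rw [hsum] at g
  rw [hN', show (3 : ℕ) = 0 + 1 + 1 + 1 from rfl, Multiset.replicate_succ,
    Multiset.replicate_succ, Multiset.replicate_succ, Multiset.replicate_zero,
    Multiset.add_cons, Multiset.add_cons, Multiset.add_cons, add_zero] at g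
  exact good_drop_zero (good_drop_zero (good_drop_zero g))

/-- The theorem for at most three big points. -/
theorem threeBigPoints (d h M : ℕ) (m : Fin h → ℕ) (T : Finset (Fin h)) (hT : T.card ≤ 3)
    (hM : 0 < M) (hd : 11 * M * (M + 1) + 2 * M + 1 ≤ d) (hm : ∀ i, m i + 2 * M ≤ d)
    (hsmall : ∀ i, i ∉ T → m i ≤ M) :
    (∃ Q : MvPolynomial (Fin h × Fin 3) ℂ, Q ≠ 0 ∧ ∀ p : Fin h → Fin 3 → ℂ,
      eval (fun ij : Fin h × Fin 3 => p ij.1 ij.2) Q ≠ 0 →
      Module.finrank ℂ (sys d h m p) = (d + 2).choose 2 - ∑ k, (m k + 1).choose 2) ∨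
    (∃ Q : MvPolynomial (Fin h × Fin 3) ℂ, Q ≠ 0 ∧ ∀ p : Fin h → Fin 3 → ℂ,
      eval (fun ij : Fin h × Fin 3 => p ij.1 ij.2) Q ≠ 0 →
      ∃ l : MvPolynomial (Fin 3) ℂ, l.IsHomogeneous 1 ∧ l ≠ 0 ∧
        ∀ f ∈ sys d h m p, l ^ 2 ∣ f) := by
  classical
  by_cases hij : ∃ i j, i ≠ j ∧ d + 2 ≤ m i + m j
  · right
    obtain ⟨i, j, hne, hab⟩ := hij
    refine ⟨X (i, 0) * X (j, 1) - X (i, 1) * X (j, 0), ?_, ?_⟩
    · intro h0
      have h1 := congrArg (eval (fun ij : Fin h × Fin 3 =>
        if ij.1 = i then (if ij.2 = 0 then (1 : ℂ) else 0) else (if ij.2 = 1 then 1 else 0))) h0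
      simp [hne.symm] at h1
    · intro p hp
      apply double_line (i := i) (j := j) _ hab
      simpa using hp
  · left
    push Not at hij
    apply generic_of_good
    have hkk : 2 * kk M = M * M + M := two_mul_kk M
    have g := good_multi (d := d) (Finset.univ.val.map m) hM (by
      have : 11 * M * (M + 1) = 11 * (M * M + M) := by ring
      omega) ?_ ?_ ?_
    · rwa [sumkk_eq, card_tri] at g
    · rw [Multiset.filter_map, Multiset.card_map]
      have h1 : Multiset.card (Multiset.filter ((fun x => M < x) ∘ m) Finset.univ.val) =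
          (Finset.univ.filter (fun i => M < m i)).card := rfl
      rw [h1]
      refine le_trans (Finset.card_le_card ?_) hT
      intro i hi
      rw [Finset.mem_filter] at hi
      by_contra hcon
      have := hsmall i hcon
      omega
    · intro x hx
      obtain ⟨i, _, rfl⟩ := Multiset.mem_map.mp hx
      exact hm i
    · intro a b S hS
      obtain ⟨i, hi, rfl, hS1⟩ := (Multiset.map_eq_cons _ _ _ _).mpr hS
      obtain ⟨j, hj, rfl, hS2⟩ := (Multiset.map_eq_cons _ _ _ _).mpr hS1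
      have hne : j ≠ i := by
        rintro rfl
        exact (Multiset.Nodup.notMem_erase (Finset.nodup Finset.univ)) hj
      have := hij i j hne.symm
      omega

end Pool.Agent.helper7.Hex
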